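import Mathlib

/-!
# Project RD: statements of the lemma jobs
-/

set_option autoImplicit false
set_option linter.all false

open Polynomial
open scoped Classical

namespace Pool.Agent.Q45.RD

/-- RD-ORTH: orthogonal vectors. Proof: induction on the rank. If the rank is positive there is `v` with
`b = β v v ≠ 0` (otherwise `2 β x y = β (x+y) (x+y) - β x x - β y y = 0`, so `V = 0`). Let `V'` be the kernel
of `β v`; it is a submodule (finite, free) and `b x - β x v • v ∈ V'` for all `x`; `b V ⊆ ℤ_2 v ⊕ V'` and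
`V' ∩ ℤ_2 v = 0` give `finrank V' = finrank V - 1`; the restriction of `β` to `V'` is nondegenerate
(if `x ∈ V'` is orthogonal to `V'`, then `b β x y = β y v * β x v + β x (b y - β y v • v) = 0`). Take the
vectors of `V'` and `v`, and `D = b D'`: `b D' x = D' (β x v) v + D' (b x - β x v v)`. -/
def Orth : Prop :=
  ∀ (V : Type) [AddCommGroup V] [Module ℤ_[2] V] [Module.Finite ℤ_[2] V] [Module.Free ℤ_[2] V]
    (β : V →ₗ[ℤ_[2]] V →ₗ[ℤ_[2]] ℤ_[2]), (∀ x y, β x y = β y x) →
    (∀ x, (∀ y, β x y = 0) → x = 0) →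
    ∃ (v : Fin (Module.finrank ℤ_[2] V) → V) (D : ℤ_[2]), D ≠ 0 ∧
      (∀ i j, i ≠ j → β (v i) (v j) = 0) ∧ (∀ i, β (v i) (v i) ≠ 0) ∧
      ∀ x : V, ∃ a : Fin (Module.finrank ℤ_[2] V) → ℤ_[2], D • x = ∑ i, a i • v i

/-- The eigenvalues: `(1 + x) / (1 - x)` and its inverse. -/
noncomputable def lamb {L P : Type} [Field L] (x : P → L) (k : P × Bool) : L :=
  if k.2 then (1 + x k.1) / (1 - x k.1) else (1 - x k.1) / (1 + x k.1)

/-- RD-IND: independence of the eigenvalues. Proof: put `y p = 2 x p / (1 - x p)`, so that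
`lamb x (p, true) = 1 + y p`, `‖y p‖ = ‖x p‖ / 2` (as `‖x p‖ < 1`), and `lamb x (p, false)` is its inverse.
By induction on `c`, `‖(1 + y) ^ c - 1 - c y‖ ≤ ‖y‖ ^ 2` if `‖y‖ ≤ 1`. For `0 < c ≤ n` one has
`‖c y p‖ ≥ ‖y p‖ / n > ‖y p‖ ^ 2`, so `‖(1 + y p) ^ c - 1‖ = ‖c y p‖ ≥ ‖y p‖ / n`; for all `c` in `ℤ`,
`‖(1 + y p) ^ c - 1‖ ≤ ‖y p‖`. The product over the word is `∏ p, (1 + y p) ^ (a p - b p)` with the numbers
`a p`, `b p` of the letters `(p, true)`, `(p, false)`. If `a p ≠ b p` for some `p`, take the one with the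
smallest `idx p`: then `‖(1 + y p) ^ (a p - b p) - 1‖ ≥ ‖y p‖ / n` and the product of the other factors
differs from `1` by less than `‖y p‖ / n`, so the product is not `1`. -/
def Ind : Prop :=
  ∀ (L : Type) [NormedField L] [IsUltrametricDist L], (‖(2 : L)‖ = 1 / 2) →
    (∀ c : ℕ, 0 < c → 1 / (c : ℝ) ≤ ‖(c : L)‖) →
    ∀ (P : Type) [Fintype P] (idx : P → ℕ) (x : P → L) (n : ℕ), 1 ≤ n → Function.Injective idx →
      (∀ p, x p ≠ 0) → (∀ p, ‖x p‖ * n < 1) →
      (∀ p q, idx p < idx q → ‖x q‖ * n < ‖x p‖) →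
      ∀ (m : ℕ), m ≤ n → ∀ w : Fin m → P × Bool, (∏ s, lamb x (w s)) = 1 →
        ∀ p, (Finset.univ.filter fun s => w s = (p, true)).card =
          (Finset.univ.filter fun s => w s = (p, false)).card

/-- RD-CLOSE: the eigenvalues of congruent endomorphisms are close. Proof: the matrices of `α` and `g` in a
basis are congruent modulo `2 ^ r`, so the coefficients of the characteristic polynomials are congruent
modulo `2 ^ r` (map them to the quotient ring by `2 ^ r`). A root `lam` of a monic polynomial with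
coefficients of norm at most `1` has norm at most `1`. So the value of the characteristic polynomial of `g`
at `lam` has norm at most `(1 / 2) ^ r`; it is the product of `lam - mu` over the roots `mu` (with
multiplicity, their number is the rank), so one of the factors satisfies the inequality. -/
def Close : Prop :=
  ∀ (L : Type) [NormedField L] [IsUltrametricDist L] [IsAlgClosed L] [Algebra ℤ_[2] L],
    (∀ x : ℤ_[2], ‖algebraMap ℤ_[2] L x‖ = ‖x‖) →
    ∀ (V : Type) [AddCommGroup V] [Module ℤ_[2] V] [Module.Finite ℤ_[2] V] [Module.Free ℤ_[2] V]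
      (α g : V →ₗ[ℤ_[2]] V) (r : ℕ), (∀ v, ∃ v', g v - α v = (2 : ℤ_[2]) ^ r • v') →
      ∀ lam : L, (α.charpoly.map (algebraMap ℤ_[2] L)).eval lam = 0 →
        ∃ mu : L, (g.charpoly.map (algebraMap ℤ_[2] L)).eval mu = 0 ∧
          ‖mu - lam‖ ^ (Module.finrank ℤ_[2] V) ≤ (1 / 2 : ℝ) ^ r

/-- RD-EIG: eigenforms. If `K` indexes different eigenvalues of `g` and has as many elements as the rank,
there are eigenforms for these eigenvalues and they are a basis of the linear forms. Proof: the `L`-space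
`U` of the linear forms `V → L` has dimension `finrank V` (dual of a basis), composition with `g` is an
endomorphism of `U` whose matrix is the transpose of the matrix of `g`, so `lam k` is an eigenvalue of it
(or: the matrix `lam k - g` over `L` has determinant `0`, so some nonzero row vector is killed); let `f k` be
an eigenvector. Eigenvectors for different eigenvalues are linearly independent, and their number is the
dimension. -/
def Eig : Prop :=
  ∀ (L : Type) [Field L] [Algebra ℤ_[2] L], Function.Injective (algebraMap ℤ_[2] L) →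
    ∀ (V : Type) [AddCommGroup V] [Module ℤ_[2] V] [Module.Finite ℤ_[2] V] [Module.Free ℤ_[2] V]
      (g : V →ₗ[ℤ_[2]] V) (K : Type) [Fintype K] (lam : K → L), Function.Injective lam →
      (∀ k, (g.charpoly.map (algebraMap ℤ_[2] L)).eval (lam k) = 0) →
      Fintype.card K = Module.finrank ℤ_[2] V →
      ∃ f : K → (V →ₗ[ℤ_[2]] L), (∀ k x, f k (g x) = lam k * f k x) ∧
        (∀ φ : V →ₗ[ℤ_[2]] L, ∃ a : K → L, ∀ x, φ x = ∑ k, a k * f k x) ∧
        ∀ a : K → L, (∀ x, ∑ k, a k * f k x = 0) → a = 0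

/-- RD-EXP: expansion of multilinear maps. If the forms `f k` are a basis of the linear forms, the products
of the `f k` are a basis of the multilinear maps. Proof: existence: expand `x s` in a basis `b` of `V`,
`x s = ∑ j, b*_j (x s) b_j`, use `MultilinearMap.map_sum` and write the coordinate forms (with values in `L`)
as combinations of the `f k`; then use `Finset.prod_univ_sum`. Uniqueness: induction on `n`: for fixed
`x 0` (or the last variable varying first) the coefficients of the `f k (x 0)` vanish. -/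
def Exp : Prop :=
  ∀ (L : Type) [Field L] [Algebra ℤ_[2] L] (V : Type) [AddCommGroup V] [Module ℤ_[2] V]
    [Module.Finite ℤ_[2] V] [Module.Free ℤ_[2] V] (K : Type) [Fintype K]
    (f : K → (V →ₗ[ℤ_[2]] L)),
    (∀ φ : V →ₗ[ℤ_[2]] L, ∃ a : K → L, ∀ x, φ x = ∑ k, a k * f k x) →
    (∀ a : K → L, (∀ x, ∑ k, a k * f k x = 0) → a = 0) →
    ∀ n : ℕ, (∀ Ψ : MultilinearMap ℤ_[2] (fun _ : Fin n => V) L, ∃ c : (Fin n → K) → L,
        ∀ x, Ψ x = ∑ w : Fin n → K, c w * ∏ s, f (w s) (x s)) ∧
      ∀ c : (Fin n → K) → L, (∀ x : Fin n → V, ∑ w : Fin n → K, c w * ∏ s, f (w s) (x s) = 0) →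
        c = 0

end Pool.Agent.Q45.RD
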