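import Pool.Agent.Q45.RD.Bal
import Mathlib.NumberTheory.Padics.Complex

/-!
# Families of isometries with maximal tori
-/

set_option autoImplicit false
set_option linter.all false

open Module Polynomial
open scoped Classical

namespace Pool.Agent.Q45.RD

section total

variable {ι : Type} [Fintype ι] {V : ι → Type} [∀ i, AddCommGroup (V i)] [∀ i, Module ℤ_[2] (V i)]

/-- The sum of the forms. -/
noncomputable def totF (β : ∀ i, V i →ₗ[ℤ_[2]] V i →ₗ[ℤ_[2]] ℤ_[2]) :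
    (∀ i, V i) →ₗ[ℤ_[2]] (∀ i, V i) →ₗ[ℤ_[2]] ℤ_[2] :=
  ∑ i, ((β i).compl₁₂ (LinearMap.proj i) (LinearMap.proj i))

theorem totF_apply (β : ∀ i, V i →ₗ[ℤ_[2]] V i →ₗ[ℤ_[2]] ℤ_[2]) (x y : ∀ i, V i) :
    totF β x y = ∑ i, β i (x i) (y i) := by
  unfold totF
  rw [LinearMap.sum_apply, LinearMap.sum_apply]
  rfl

/-- The endomorphism of the product. -/
noncomputable def totE (g : ∀ i, V i →ₗ[ℤ_[2]] V i) : (∀ i, V i) →ₗ[ℤ_[2]] (∀ i, V i) :=
  LinearMap.pi fun i => (g i).comp (LinearMap.proj i)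

theorem totE_apply (g : ∀ i, V i →ₗ[ℤ_[2]] V i) (x : ∀ i, V i) (i : ι) : totE g x i = g i (x i) := rfl

theorem totE_pow (g : ∀ i, V i →ₗ[ℤ_[2]] V i) (m : ℕ) : totE g ^ m = totE fun i => g i ^ m := by
  induction m with
  | zero => rfl
  | succ m ih =>
    rw [pow_succ', ih]
    refine LinearMap.ext fun x => funext fun i => ?_
    rw [Module.End.mul_apply, totE_apply, totE_apply, totE_apply, pow_succ', Module.End.mul_apply]

theorem totF_nd {β : ∀ i, V i →ₗ[ℤ_[2]] V i →ₗ[ℤ_[2]] ℤ_[2]}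
    (hnd : ∀ i x, (∀ y, β i x y = 0) → x = 0) (x : ∀ i, V i) (hx : ∀ y, totF β x y = 0) : x = 0 := by
  funext i
  refine hnd i (x i) fun z => ?_
  have h1 := hx (Pi.single i z)
  rw [totF_apply, Finset.sum_eq_single i, Pi.single_eq_same] at h1
  · exact h1
  · intro j _ hj
    rw [Pi.single_eq_of_ne hj, map_zero]
  · intro h
    exact absurd (Finset.mem_univ i) h

end total

section pad

theorem sub_le_max {L : Type} [NormedField L] [IsUltrametricDist L] (a b : L) :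
    ‖a - b‖ ≤ max ‖a‖ ‖b‖ := by
  rw [sub_eq_add_neg]
  refine (IsUltrametricDist.norm_add_le_max _ _).trans ?_
  rw [norm_neg]

theorem pad_norm (x : ℤ_[2]) : ‖algebraMap ℤ_[2] (PadicAlgCl 2) x‖ = ‖x‖ := by
  have h1 : algebraMap ℤ_[2] (PadicAlgCl 2) x = algebraMap ℚ_[2] (PadicAlgCl 2) (x : ℚ_[2]) :=
    (IsScalarTower.algebraMap_apply ℤ_[2] ℚ_[2] (PadicAlgCl 2) x)
  rw [h1]
  exact (PadicAlgCl.norm_extends 2 (x : ℚ_[2])).trans PadicInt.norm_def.symm

theorem norm_two_L {L : Type} [NormedField L] [Algebra ℤ_[2] L]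
    (hL : ∀ x : ℤ_[2], ‖algebraMap ℤ_[2] L x‖ = ‖x‖) : ‖(2 : L)‖ = 1 / 2 := by
  have h1 := hL 2
  rw [map_ofNat] at h1
  rw [h1]
  have h := PadicInt.norm_p (p := 2)
  have h3 : ((2 : ℕ) : ℤ_[2]) = 2 := Nat.cast_ofNat
  rw [h3] at h
  rw [h]
  norm_num

theorem norm_nat_L {L : Type} [NormedField L] [Algebra ℤ_[2] L]
    (hL : ∀ x : ℤ_[2], ‖algebraMap ℤ_[2] L x‖ = ‖x‖) (c : ℕ) (hc : 0 < c) :
    1 / (c : ℝ) ≤ ‖(c : L)‖ := by
  have h1 := hL c
  rw [map_natCast] at h1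
  rw [h1, PadicInt.norm_def, PadicInt.coe_natCast]
  have h2 := Padic.norm_eq_zpow_neg_valuation (p := 2) (x := (c : ℚ_[2])) (Nat.cast_ne_zero.2 hc.ne')
  rw [h2, Padic.valuation_natCast, zpow_neg, zpow_natCast, one_div]
  have h3 : (2 ^ padicValNat 2 c : ℕ) ≤ c := Nat.le_of_dvd hc pow_padicValNat_dvd
  have h4 : ((2 : ℝ) ^ padicValNat 2 c) ≤ c := by exact_mod_cast h3
  refine inv_anti₀ (by positivity) ?_
  exact_mod_cast h4

end pad

section main

variable {ι : Type} [Fintype ι] {V : ι → Type} [∀ i, AddCommGroup (V i)] [∀ i, Module ℤ_[2] (V i)]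

/-- The tensors of length at most `n` which commute with a power of the family are fixed by the
isometries which commute with the family. -/
def TorusFixed {N : Type} [AddCommGroup N] [Module ℤ_[2] N]
    (β : ∀ i, V i →ₗ[ℤ_[2]] V i →ₗ[ℤ_[2]] ℤ_[2]) (g : ∀ i, V i →ₗ[ℤ_[2]] V i)
    (h : N →ₗ[ℤ_[2]] N) (n : ℕ) : Prop :=
  ∀ n' : ℕ, n' ≤ n → ∀ c : Fin n' → ι, ∀ m : ℕ, 0 < m →
    ∀ Φ : MultilinearMap ℤ_[2] (fun s => V (c s)) N,
      (∀ x : ∀ s, V (c s), Φ (fun s => ((g (c s)) ^ m) (x s)) = (h ^ m) (Φ x)) →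
      ∀ u : ∀ i, V i →ₗ[ℤ_[2]] V i, (∀ i x y, β i (u i x) (u i y) = β i x y) →
        (∀ i x, u i (g i x) = g i (u i x)) →
          ∀ x : ∀ s, V (c s), Φ (fun s => u (c s) (x s)) = Φ x

variable [∀ i, Module.Finite ℤ_[2] (V i)] [∀ i, Module.Free ℤ_[2] (V i)]

theorem exists_family (hO : Orth) (hI : Ind) (hC : Close) (hEi : Eig) (hEx : Exp)
    (β : ∀ i, V i →ₗ[ℤ_[2]] V i →ₗ[ℤ_[2]] ℤ_[2])
    (hsym : ∀ i x y, β i x y = β i y x) (hnd : ∀ i x, (∀ y, β i x y = 0) → x = 0)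
    (hm : ∀ i, Even (finrank ℤ_[2] (V i))) (j n : ℕ) :
    ∃ α : ∀ i, V i ≃ₗ[ℤ_[2]] V i, (∀ i x y, β i (α i x) (α i y) = β i x y) ∧
      (∀ i v, ∃ v', α i v - v = (2 : ℤ_[2]) ^ j • v') ∧
      ∃ r : ℕ, ∀ (N : Type) [AddCommGroup N] [Module ℤ_[2] N] [Module.Finite ℤ_[2] N]
        [Module.Free ℤ_[2] N] (g : ∀ i, V i →ₗ[ℤ_[2]] V i) (h h' : N →ₗ[ℤ_[2]] N),
        (∀ y, h' (h y) = y) → (∀ y, h (h' y) = y) →
        (∀ i x y, β i (g i x) (g i y) = β i x y) →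
        (∀ i v, ∃ v', g i v - α i v = (2 : ℤ_[2]) ^ r • v') →
        (∀ y, ∃ z, h y - y = (2 : ℤ_[2]) ^ r • z) → TorusFixed β g h n := by
  have hLi : Function.Injective (algebraMap ℤ_[2] (PadicAlgCl 2)) := by
    rw [injective_iff_map_eq_zero]
    intro a ha
    rw [← norm_eq_zero, ← pad_norm, ha, norm_zero]
  have h2L := norm_two_L pad_norm
  choose mi hmi using hm
  choose δ hδ hδα using fun i =>
    exists_planes (L := PadicAlgCl 2) hO hLi (β i) (hsym i) (hnd i) (hmi i)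
  let P : Type := Σ i, Fin (mi i)
  obtain ⟨idx, a, hidx, hae, ha1, ha2⟩ := exists_scales (P := P) (fun p => ‖δ p.1 p.2‖)
    (fun p => norm_pos_iff.2 (hδ p.1 p.2)) (n + 2) (max j 2)
  let x : P → PadicAlgCl 2 := fun p => 2 ^ a p * δ p.1 p.2
  have hxn : ∀ p, ‖x p‖ = (1 / 2 : ℝ) ^ a p * ‖δ p.1 p.2‖ := fun p => by
    show ‖2 ^ a p * δ p.1 p.2‖ = _
    rw [norm_mul, norm_pow, h2L]
  have hx0 : ∀ p, x p ≠ 0 := fun p => by
    rw [← norm_pos_iff, hxn]
    exact mul_pos (by positivity) (norm_pos_iff.2 (hδ p.1 p.2))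
  have hx1 : ∀ p, ‖x p‖ * ((n + 2 : ℕ) : ℝ) < 1 := fun p => by
    rw [hxn]
    exact ha1 p
  have hx2 : ∀ p q, idx p < idx q → ‖x q‖ * ((n + 2 : ℕ) : ℝ) < ‖x p‖ := fun p q hpq => by
    rw [hxn, hxn]
    exact ha2 p q hpq
  have hxlt : ∀ p, ‖x p‖ < 1 := fun p => by
    refine lt_of_le_of_lt ?_ (hx1 p)
    refine le_mul_of_one_le_right (norm_nonneg _) ?_
    push_cast
    have : (0 : ℝ) ≤ n := Nat.cast_nonneg n
    linarith
  have hind := hI (PadicAlgCl 2) h2L (norm_nat_L pad_norm) P idx x (n + 2) (by omega) hidx hx0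
    hx1 hx2
  have hp0 : ∀ {y : PadicAlgCl 2}, ‖y‖ < 1 → (1 : PadicAlgCl 2) + y ≠ 0 := fun {y} hy =>
    norm_ne_zero_iff.1 (by rw [norm_one_add hy]; exact one_ne_zero)
  have hp1 : ∀ {y : PadicAlgCl 2}, ‖y‖ < 1 → (1 : PadicAlgCl 2) - y ≠ 0 := fun {y} hy =>
    norm_ne_zero_iff.1 (by rw [norm_one_sub hy]; exact one_ne_zero)
  choose α hα1 hα2 hα3 using fun i => hδα i (fun p => a ⟨i, p⟩) (max j 2)
    (le_trans (by norm_num) (le_max_right j 2)) (fun p => hae ⟨i, p⟩)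
    (fun p => hp0 (hxlt ⟨i, p⟩)) (fun p => hp1 (hxlt ⟨i, p⟩))
  let A : (∀ i, V i) →ₗ[ℤ_[2]] (∀ i, V i) := totE fun i => (α i : V i →ₗ[ℤ_[2]] V i)
  have hroot : ∀ k : P × Bool,
      (A.charpoly.map (algebraMap ℤ_[2] (PadicAlgCl 2))).eval (lamb x k) = 0 := by
    rintro ⟨⟨i, p⟩, s⟩
    obtain ⟨f, hf0, hf⟩ := hα3 i (p, s)
    have h1 : ∃ x₀, f x₀ ≠ 0 := by
      by_contra hcon
      push Not at hcon
      exact hf0 (LinearMap.ext hcon)
    obtain ⟨x₀, hx₀⟩ := h1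
    refine root_of_form (f := f.comp (LinearMap.proj i)) (x₀ := Pi.single i x₀) (fun y => ?_) ?_
    · rw [LinearMap.comp_apply, LinearMap.comp_apply]
      exact hf (y i)
    · rw [LinearMap.comp_apply, LinearMap.proj_apply, Pi.single_eq_same]
      exact hx₀
  -- the lower bound
  let W : Type := Σ n' : Fin (n + 3), (Fin (n' : ℕ) → P × Bool)
  let F : W → ℝ := fun w => if ∏ s, lamb x (w.2 s) = 1 then 1 else ‖(∏ s, lamb x (w.2 s)) - 1‖
  obtain ⟨ε', hε', hεF⟩ := exists_lower F fun w => by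
    show 0 < (if ∏ s, lamb x (w.2 s) = 1 then 1 else ‖(∏ s, lamb x (w.2 s)) - 1‖)
    split_ifs with h1
    · exact one_pos
    · exact norm_pos_iff.2 (sub_ne_zero.2 h1)
  let ε := min ε' 1
  have hε : 0 < ε := lt_min hε' one_pos
  have hε1 : ε ≤ 1 := min_le_right _ _
  have hlow : ∀ n' : ℕ, n' ≤ n + 2 → ∀ w : Fin n' → P × Bool,
      ‖(∏ s, lamb x (w s)) - 1‖ < ε → Bal w := by
    intro n' hn' w hw
    refine hind n' hn' w ?_
    by_contra hne
    have h1 := hεF ⟨⟨n', by omega⟩, w⟩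
    have h2 : F ⟨⟨n', by omega⟩, w⟩ = ‖(∏ s, lamb x (w s)) - 1‖ := if_neg hne
    rw [h2] at h1
    exact absurd (hw.trans_le (min_le_left _ _)) (not_lt.2 h1)
  -- the precision
  have ht : Filter.Tendsto (fun T : ℕ => (1 / 2 : ℝ) ^ T) Filter.atTop (nhds 0) :=
    tendsto_pow_atTop_nhds_zero_of_lt_one (by norm_num) (by norm_num)
  obtain ⟨r, ⟨hr1, hr2⟩, hr3⟩ := (((ht.eventually_lt_const hε).and
    (ht.eventually_lt_const (pow_pos hε (finrank ℤ_[2] (∀ i, V i))))).and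
    (Filter.eventually_ge_atTop 2)).exists
  refine ⟨α, hα1, fun i v => pow_le (le_max_left j 2) (hα2 i v), r, ?_⟩
  intro N _ _ _ _ g h h' hh hh' hgi hg hN
  -- the eigenvalues of `g`
  have hcg : ∀ v, ∃ v', totE g v - A v = (2 : ℤ_[2]) ^ r • v' := by
    intro v
    choose v' hv' using fun i => hg i (v i)
    exact ⟨v', funext fun i => hv' i⟩
  have hcl := fun k => hC (PadicAlgCl 2) pad_norm (∀ i, V i) A (totE g) r hcg (lamb x k) (hroot k)
  choose μ hμ hμε using hcl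
  have hμlt : ∀ k, ‖μ k - lamb x k‖ < ε := fun k =>
    lt_of_pow_lt_pow_left₀ _ hε.le ((hμε k).trans_lt hr2)
  have hlam1 : ∀ k, ‖lamb x k‖ ≤ 1 := fun k => (norm_lamb hxlt k).le
  have hμ1 : ∀ k, ‖μ k‖ ≤ 1 := fun k => norm_le_one_of_sub hε1 (hlam1 k) (hμlt k)
  have hbal : ∀ n' : ℕ, n' ≤ n + 2 → ∀ w : Fin n' → P × Bool,
      ‖(∏ s, μ (w s)) - 1‖ < ε → Bal w := by
    intro n' hn' w hw
    refine hlow n' hn' w ?_
    have h1 := prod_close Finset.univ (fun s => μ (w s)) (fun s => lamb x (w s)) hε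
      (fun s => hμ1 _) (fun s => hlam1 _) (fun s => hμlt _)
    have h2 : (∏ s, lamb x (w s)) - 1 =
        ((∏ s, μ (w s)) - 1) - ((∏ s, μ (w s)) - ∏ s, lamb x (w s)) := by ring
    rw [h2]
    exact (sub_le_max _ _).trans_lt (max_lt hw h1)
  have hinj : Function.Injective μ := by
    intro k l hkl
    have h1 : Bal ![k, opp l] := by
      refine hlow 2 (by omega) _ ?_
      rw [Fin.prod_univ_two]
      show ‖lamb x k * lamb x (opp l) - 1‖ < ε
      rw [← lamb_opp hxlt l, ← sub_mul, norm_mul, norm_lamb hxlt, mul_one]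
      have h2 : lamb x k - lamb x l = (μ l - lamb x l) - (μ k - lamb x k) := by
        rw [hkl]
        ring
      rw [h2]
      exact (sub_le_max _ _).trans_lt (max_lt (hμlt l) (hμlt k))
    have h2 := h1.two
    have h3 := congrArg opp h2
    rw [opp_opp, opp_opp] at h3
    exact h3.symm
  have hbar : ∀ k l, μ k * μ l = 1 → l = opp k := by
    intro k l hkl
    refine Bal.two (hbal 2 (by omega) _ ?_)
    rw [Fin.prod_univ_two]
    show ‖μ k * μ l - 1‖ < ε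
    rw [hkl, sub_self, norm_zero]
    exact hε
  have hcard : Fintype.card (P × Bool) = finrank ℤ_[2] (∀ i, V i) := by
    rw [Fintype.card_prod, Fintype.card_sigma, Fintype.card_bool, Module.finrank_pi_fintype,
      Finset.sum_mul]
    refine Finset.sum_congr rfl fun i _ => ?_
    rw [Fintype.card_fin, hmi]
    omega
  obtain ⟨f, hf1, hf2, hf3⟩ := hEi (PadicAlgCl 2) hLi (∀ i, V i) (totE g) (P × Bool) μ hinj hμ hcard
  have heb : IsEigenbasis (totE g) μ f := ⟨hinj, hf1, hf2, hf3⟩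
  -- the multilinear maps
  intro n' hn' c m hmp Φ hΦ u hu hug y
  have h22 : (4 : ℤ_[2]) = 2 ^ 2 := by norm_num
  have hfix := fixed_neat c g h h' hh hh' (fun i v => by
      rw [h22]
      have key : g i v - v = (g i v - α i v) + (α i v - v) := by abel
      rw [key]
      exact add_cg (pow_le hr3 (hg i v)) (pow_le (le_max_right j 2) (hα2 i v))) (fun y => by
      rw [h22]
      exact pow_le hr3 (hN y)) Φ m hmp hΦ
  let Φ' : MultilinearMap ℤ_[2] (fun _ : Fin n' => ∀ i, V i) N :=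
    Φ.compLinearMap fun s => LinearMap.proj (c s)
  have hΦ' : ∀ z : Fin n' → ∀ i, V i, Φ' z = Φ fun s => z s (c s) := fun _ => rfl
  have h1 := torus_inv hO hEx pad_norm heb (totF β)
    (fun y z => by
      rw [totF_apply, totF_apply]
      exact Finset.sum_congr rfl fun i _ => hsym i _ _)
    (totF_nd hnd)
    (fun y z => by
      rw [totF_apply, totF_apply]
      exact Finset.sum_congr rfl fun i _ => hgi i _ _)
    opp hbar h hN (n := n')
    (fun w hw t ht => (hbal n' (by omega) w (hw.trans_lt hr1)).prod t ht) Φ'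
    (fun z => by
      rw [hΦ', hΦ']
      exact hfix fun s => z s (c s))
    (totE u)
    (fun y z => by
      rw [totF_apply, totF_apply]
      exact Finset.sum_congr rfl fun i _ => hu i _ _)
    (fun y => funext fun i => hug i (y i))
    (fun s => Pi.single (c s) (y s))
  rw [hΦ', hΦ'] at h1
  simp only [totE_apply, Pi.single_eq_same] at h1
  exact h1

end main

end Pool.Agent.Q45.RD
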