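import Pool.Agent.Q45.RD.Pla

/-!
# Auxiliary facts: products in ultrametric fields, balanced words
-/

set_option autoImplicit false
set_option linter.all false

open Module Polynomial
open scoped Classical

namespace Pool.Agent.Q45.RD

section norm

variable {L : Type} [NormedField L] [IsUltrametricDist L]

theorem norm_le_one_of_sub {a b : L} {ε : ℝ} (hε : ε ≤ 1) (hb : ‖b‖ ≤ 1) (h : ‖a - b‖ < ε) :
    ‖a‖ ≤ 1 := by
  have h1 : a = (a - b) + b := by ring
  rw [h1]
  exact (IsUltrametricDist.norm_add_le_max _ _).trans (max_le (h.le.trans hε) hb)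

/-- Products of close elements are close. -/
theorem prod_close {S : Type} (F : Finset S) (a b : S → L) {ε : ℝ} (hε : 0 < ε)
    (ha : ∀ s, ‖a s‖ ≤ 1) (hb : ∀ s, ‖b s‖ ≤ 1) (h : ∀ s, ‖a s - b s‖ < ε) :
    ‖(∏ s ∈ F, a s) - ∏ s ∈ F, b s‖ < ε := by
  induction F using Finset.induction_on with
  | empty =>
    rw [Finset.prod_empty, Finset.prod_empty, sub_self, norm_zero]
    exact hε
  | insert i F hi ih =>
    rw [Finset.prod_insert hi, Finset.prod_insert hi]
    have h1 : a i * (∏ s ∈ F, a s) - b i * ∏ s ∈ F, b s =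
        a i * ((∏ s ∈ F, a s) - ∏ s ∈ F, b s) + (a i - b i) * ∏ s ∈ F, b s := by ring
    rw [h1]
    refine (IsUltrametricDist.norm_add_le_max _ _).trans_lt (max_lt ?_ ?_)
    · rw [norm_mul]
      exact (mul_le_of_le_one_left (norm_nonneg _) (ha i)).trans_lt ih
    · rw [norm_mul]
      refine (mul_le_of_le_one_right (norm_nonneg _) ?_).trans_lt (h i)
      rw [norm_prod]
      exact Finset.prod_le_one (fun s _ => norm_nonneg _) fun s _ => hb s

theorem norm_one_add {x : L} (hx : ‖x‖ < 1) : ‖1 + x‖ = 1 := by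
  have h1 : ‖(1 : L)‖ ≠ ‖x‖ := by
    rw [norm_one]
    exact hx.ne'
  rw [IsUltrametricDist.norm_add_eq_max_of_norm_ne_norm h1, norm_one, max_eq_left hx.le]

theorem norm_one_sub {x : L} (hx : ‖x‖ < 1) : ‖1 - x‖ = 1 := by
  rw [sub_eq_add_neg]
  exact norm_one_add (by rwa [norm_neg])

theorem norm_lamb {P : Type} {x : P → L} (hx : ∀ p, ‖x p‖ < 1) (k : P × Bool) : ‖lamb x k‖ = 1 := by
  unfold lamb
  split_ifs
  · rw [norm_div, norm_one_add (hx _), norm_one_sub (hx _), div_one]
  · rw [norm_div, norm_one_add (hx _), norm_one_sub (hx _), div_one]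

end norm

section word

variable {P : Type}

/-- The opposite letter. -/
def opp (k : P × Bool) : P × Bool := (k.1, !k.2)

theorem opp_opp (k : P × Bool) : opp (opp k) = k := by
  unfold opp
  simp

theorem lamb_opp {L : Type} [NormedField L] [IsUltrametricDist L] {x : P → L} (hx : ∀ p, ‖x p‖ < 1)
    (k : P × Bool) : lamb x k * lamb x (opp k) = 1 := by
  have h1 : (1 : L) + x k.1 ≠ 0 := norm_ne_zero_iff.1 (by rw [norm_one_add (hx _)]; exact one_ne_zero)
  have h2 : (1 : L) - x k.1 ≠ 0 := norm_ne_zero_iff.1 (by rw [norm_one_sub (hx _)]; exact one_ne_zero)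
  obtain ⟨p, s⟩ := k
  unfold lamb opp
  simp only at h1 h2
  cases s
  · simp only [Bool.false_eq_true, if_false, Bool.not_false, if_true]
    field_simp
  · simp only [if_true, Bool.not_true, Bool.false_eq_true, if_false]
    field_simp

/-- The word contains each letter as often as the opposite one. -/
def Bal {n : ℕ} (w : Fin n → P × Bool) : Prop :=
  ∀ p, (Finset.univ.filter fun s => w s = (p, true)).card =
    (Finset.univ.filter fun s => w s = (p, false)).card

theorem Bal.prod [Fintype P] {L : Type} [Field L] {n : ℕ} {w : Fin n → P × Bool} (h : Bal w)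
    (t : P × Bool → L) (ht : ∀ k, t k * t (opp k) = 1) : ∏ s, t (w s) = 1 := by
  have h1 : ∏ s, t (w s) = ∏ k : P × Bool, t k ^ (Finset.univ.filter fun s => w s = k).card := by
    rw [← Finset.prod_fiberwise_of_maps_to (s := Finset.univ) (t := Finset.univ) (g := w)
      (fun s _ => Finset.mem_univ _)]
    refine Finset.prod_congr rfl fun k _ => ?_
    rw [Finset.prod_congr rfl fun s hs => by rw [(Finset.mem_filter.1 hs).2], Finset.prod_const]
  rw [h1, Fintype.prod_prod_type]
  refine Finset.prod_eq_one fun p _ => ?_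
  rw [Fintype.prod_bool, h p, ← mul_pow]
  have h2 := ht (p, true)
  rw [show opp (p, true) = (p, false) from rfl] at h2
  rw [h2, one_pow]

theorem Bal.two {k l : P × Bool} (h : Bal ![k, l]) : l = opp k := by
  obtain ⟨p, s⟩ := k
  have h1 := h p
  cases s
  · have h2 : (Finset.univ.filter fun s : Fin 2 => ![(p, false), l] s = (p, false)).card ≠ 0 := by
      rw [← Nat.pos_iff_ne_zero, Finset.card_pos]
      exact ⟨0, Finset.mem_filter.2 ⟨Finset.mem_univ _, rfl⟩⟩
    rw [← h1, ← Nat.pos_iff_ne_zero, Finset.card_pos] at h2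
    obtain ⟨s, hs⟩ := h2
    have h3 := (Finset.mem_filter.1 hs).2
    fin_cases s
    · simp at h3
    · exact h3
  · have h2 : (Finset.univ.filter fun s : Fin 2 => ![(p, true), l] s = (p, true)).card ≠ 0 := by
      rw [← Nat.pos_iff_ne_zero, Finset.card_pos]
      exact ⟨0, Finset.mem_filter.2 ⟨Finset.mem_univ _, rfl⟩⟩
    rw [h1, ← Nat.pos_iff_ne_zero, Finset.card_pos] at h2
    obtain ⟨s, hs⟩ := h2
    have h3 := (Finset.mem_filter.1 hs).2
    fin_cases s
    · simp at h3
    · exact h3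

end word

section pos

theorem exists_lower {W : Type} [Finite W] (F : W → ℝ) (hF : ∀ w, 0 < F w) :
    ∃ ε : ℝ, 0 < ε ∧ ∀ w, ε ≤ F w := by
  cases isEmpty_or_nonempty W with
  | inl h => exact ⟨1, one_pos, fun w => (h.false w).elim⟩
  | inr h =>
    obtain ⟨w, hw⟩ := Finite.exists_min F
    exact ⟨F w, hF w, hw⟩

/-- The scales. -/
theorem exists_scales {P : Type} [Fintype P] (ρ : P → ℝ) (hρ : ∀ p, 0 < ρ p) (n e : ℕ) :
    ∃ (idx : P → ℕ) (a : P → ℕ), Function.Injective idx ∧ (∀ p, e ≤ a p) ∧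
      (∀ p, (1 / 2 : ℝ) ^ a p * ρ p * n < 1) ∧
      ∀ p q, idx p < idx q → (1 / 2 : ℝ) ^ a q * ρ q * n < (1 / 2 : ℝ) ^ a p * ρ p := by
  have ht : Filter.Tendsto (fun T : ℕ => (1 / 2 : ℝ) ^ T) Filter.atTop (nhds 0) :=
    tendsto_pow_atTop_nhds_zero_of_lt_one (by norm_num) (by norm_num)
  have h1 : ∀ᶠ T : ℕ in Filter.atTop, ∀ z : P × P, (1 / 2 : ℝ) ^ T * (ρ z.2 * n) < ρ z.1 := by
    rw [Filter.eventually_all]
    intro z
    have h2 := ht.mul_const (ρ z.2 * n)
    rw [zero_mul] at h2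
    exact h2.eventually_lt_const (hρ z.1)
  have h1' : ∀ᶠ T : ℕ in Filter.atTop, ∀ p : P, (1 / 2 : ℝ) ^ T * (ρ p * n) < 1 := by
    rw [Filter.eventually_all]
    intro z
    have h2 := ht.mul_const (ρ z * n)
    rw [zero_mul] at h2
    exact h2.eventually_lt_const one_pos
  obtain ⟨T, hT⟩ := h1.exists
  obtain ⟨B, hB, hBe⟩ := (h1'.and (Filter.eventually_ge_atTop e)).exists
  let idx : P → ℕ := fun p => (Fintype.equivFin P p : ℕ)
  have hp : ∀ {x y : ℕ}, x ≤ y → (1 / 2 : ℝ) ^ y ≤ (1 / 2 : ℝ) ^ x := fun h =>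
    pow_le_pow_of_le_one (by norm_num) (by norm_num) h
  refine ⟨idx, fun p => B + T * idx p, fun p q h => (Fintype.equivFin P).injective (Fin.ext h),
    fun p => hBe.trans (Nat.le_add_right _ _), fun p => ?_, fun p q hpq => ?_⟩
  · rw [mul_assoc]
    refine (mul_le_mul_of_nonneg_right (hp (Nat.le_add_right B (T * idx p))) ?_).trans_lt (hB p)
    exact mul_nonneg (hρ p).le (Nat.cast_nonneg n)
  · have h2 : B + T * idx p + T ≤ B + T * idx q := by
      have := Nat.mul_le_mul_left T (Nat.succ_le_of_lt hpq)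
      rw [Nat.mul_succ] at this
      omega
    calc (1 / 2 : ℝ) ^ (B + T * idx q) * ρ q * n
        = (1 / 2 : ℝ) ^ (B + T * idx q) * (ρ q * n) := by ring
      _ ≤ (1 / 2 : ℝ) ^ (B + T * idx p + T) * (ρ q * n) :=
          mul_le_mul_of_nonneg_right (hp h2) (mul_nonneg (hρ q).le (Nat.cast_nonneg n))
      _ = (1 / 2 : ℝ) ^ (B + T * idx p) * ((1 / 2 : ℝ) ^ T * (ρ q * n)) := by
          rw [pow_add]
          ring
      _ < (1 / 2 : ℝ) ^ (B + T * idx p) * ρ p :=
          mul_lt_mul_of_pos_left (hT (p, q)) (by positivity)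

end pos

end Pool.Agent.Q45.RD
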