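import Pool.Agent.Q45.RD.Lin

/-!
# Skew endomorphisms and their Cayley transforms
-/

set_option autoImplicit false
set_option linter.all false

open Module
open scoped Classical

namespace Pool.Agent.Q45.RD

open Pool.Agent.Q45.OI

variable {V : Type} [AddCommGroup V] [Module ℤ_[2] V] [Module.Finite ℤ_[2] V] [Module.Free ℤ_[2] V]

/-- A nonzero element times a unit is a power of two. -/
theorem exists_unit_pow {d : ℤ_[2]} (hd : d ≠ 0) : ∃ (u : ℤ_[2]) (C : ℕ), d * u = 2 ^ C := by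
  have h2 : ((2 : ℕ) : ℤ_[2]) = 2 := Nat.cast_ofNat
  obtain ⟨w, e, h⟩ : ∃ (w : (ℤ_[2])ˣ) (e : ℕ), d = w * (2 : ℤ_[2]) ^ e :=
    ⟨PadicInt.unitCoeff hd, d.valuation, by rw [← h2]; exact PadicInt.unitCoeff_spec hd⟩
  refine ⟨(w⁻¹ : (ℤ_[2])ˣ), e, ?_⟩
  rw [h, mul_comm (w : ℤ_[2]), mul_assoc, Units.mul_inv, mul_one]

/-- There is a skew endomorphism which is invertible up to a power of two. -/
theorem exists_skew (β : V →ₗ[ℤ_[2]] V →ₗ[ℤ_[2]] ℤ_[2]) (hsym : ∀ x y, β x y = β y x)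
    (hnd : ∀ x, (∀ y, β x y = 0) → x = 0) {m : ℕ} (hm : finrank ℤ_[2] V = m + m) :
    ∃ (A A' : V →ₗ[ℤ_[2]] V) (C : ℕ), (∀ x y, β (A x) y = -β x (A y)) ∧
      ∀ x, A (A' x) = (2 : ℤ_[2]) ^ C • x := by
  let b : Basis (Fin m ⊕ Fin m) ℤ_[2] V :=
    (Module.finBasisOfFinrankEq ℤ_[2] V hm).reindex finSumFinEquiv.symm
  let β' : LinearMap.BilinForm ℤ_[2] V := β
  set B := LinearMap.BilinForm.toMatrix b β' with hB
  have hdet : B.det ≠ 0 := by
    rw [hB]
    refine (LinearMap.BilinForm.nondegenerate_iff_det_ne_zero (B := β') b).1 ⟨fun x hx => hnd x hx,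
      fun y hy => hnd y fun x => by rw [hsym]; exact hy x⟩
  have hBT : B.transpose = B := by
    ext i j
    rw [Matrix.transpose_apply, hB, LinearMap.BilinForm.toMatrix_apply,
      LinearMap.BilinForm.toMatrix_apply]
    exact hsym _ _
  obtain ⟨u, C, hu⟩ := exists_unit_pow hdet
  let J := Matrix.J (Fin m) ℤ_[2]
  have hJT : J.transpose = -J := Matrix.J_transpose _ _
  have hJ2 : J * J = -1 := Matrix.J_squared _ _
  refine ⟨Matrix.toLin b b (B.adjugate * J), Matrix.toLin b b (-(u • (J * B))), C, ?_, ?_⟩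
  · set A := Matrix.toLin b b (B.adjugate * J) with hA
    have h1 : LinearMap.BilinForm.compLeft β' A =
        (-1 : ℤ_[2]) • (LinearMap.BilinForm.compRight β' A) := by
      apply (LinearMap.BilinForm.toMatrix b).injective
      rw [map_smul, LinearMap.BilinForm.toMatrix_compLeft, LinearMap.BilinForm.toMatrix_compRight, hA,
        LinearMap.toMatrix_toLin, ← hB, Matrix.transpose_mul, hJT, Matrix.adjugate_transpose, hBT,
        Matrix.mul_assoc, Matrix.adjugate_mul, ← Matrix.mul_assoc, Matrix.mul_adjugate,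
        Matrix.smul_mul, Matrix.mul_smul, Matrix.mul_one, Matrix.one_mul, smul_neg, neg_one_smul]
    intro x y
    have h2 := LinearMap.congr_fun (LinearMap.congr_fun h1 x) y
    rw [LinearMap.smul_apply, LinearMap.smul_apply, neg_one_smul] at h2
    exact h2
  · intro x
    have h1 : (B.adjugate * J) * (-(u • (J * B))) = ((2 : ℤ_[2]) ^ C) • (1 : Matrix _ _ ℤ_[2]) := by
      rw [Matrix.mul_neg, Matrix.mul_smul, Matrix.mul_assoc, ← Matrix.mul_assoc J J B, hJ2,
        Matrix.neg_mul, Matrix.one_mul, Matrix.mul_neg, smul_neg, neg_neg, Matrix.adjugate_mul,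
        smul_smul, mul_comm u, hu]
    have h2 := Matrix.toLin_mul b b b (B.adjugate * J) (-(u • (J * B)))
    rw [h1, map_smul, Matrix.toLin_one] at h2
    have h3 := LinearMap.congr_fun h2 x
    rw [LinearMap.smul_apply, LinearMap.id_apply, LinearMap.comp_apply] at h3
    exact h3.symm

/-- An endomorphism which is congruent to `1` modulo `2` is bijective. -/
theorem bij_of_cg (φ : V →ₗ[ℤ_[2]] V) (h : ∀ v, ∃ v', φ v - v = (2 : ℤ_[2]) • v') :
    Function.Bijective φ := by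
  have hsurj : Function.Surjective φ := by
    rw [← LinearMap.range_eq_top, eq_top_iff]
    refine Submodule.le_of_le_smul_of_le_jacobson_bot (I := IsLocalRing.maximalIdeal ℤ_[2])
      (IsNoetherian.noetherian _) (IsLocalRing.maximalIdeal_le_jacobson _) ?_
    intro v _
    obtain ⟨v', hv'⟩ := h v
    have h2 : (2 : ℤ_[2]) ∈ IsLocalRing.maximalIdeal ℤ_[2] := by
      rw [PadicInt.maximalIdeal_eq_span_p, Ideal.mem_span_singleton]
      exact ⟨1, by rw [mul_one]; norm_cast⟩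
    have e : v = φ v + (2 : ℤ_[2]) • (-v') := by rw [smul_neg, ← hv']; abel
    rw [e]
    exact Submodule.add_mem_sup ⟨v, rfl⟩ (Submodule.smul_mem_smul h2 Submodule.mem_top)
  exact ⟨IsNoetherian.injective_of_surjective_endomorphism φ hsurj, hsurj⟩

/-- Isometries close to `1` without fixed vectors. -/
theorem exists_cayley (β : V →ₗ[ℤ_[2]] V →ₗ[ℤ_[2]] ℤ_[2]) (hsym : ∀ x y, β x y = β y x)
    (hnd : ∀ x, (∀ y, β x y = 0) → x = 0) {m : ℕ} (hm : finrank ℤ_[2] V = m + m) :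
    ∃ C : ℕ, ∀ a : ℕ, 1 ≤ a → ∃ α : V ≃ₗ[ℤ_[2]] V, (∀ x y, β (α x) (α y) = β x y) ∧
      (∀ v, ∃ v', α v - v = (2 : ℤ_[2]) ^ a • v') ∧
      ∀ w, ∃ w', α w' - w' = (2 : ℤ_[2]) ^ (a + C) • w := by
  obtain ⟨A, A', C, hA, hAA⟩ := exists_skew β hsym hnd hm
  refine ⟨C + 1, fun a ha => ?_⟩
  obtain ⟨a', rfl⟩ := Nat.exists_eq_add_of_le' ha
  set c : ℤ_[2] := 2 ^ (a' + 1) with hc
  let P : V →ₗ[ℤ_[2]] V := LinearMap.id + c • A
  let Q : V →ₗ[ℤ_[2]] V := LinearMap.id - c • A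
  have hP : ∀ x, P x = x + c • A x := fun x => rfl
  have hQ : ∀ x, Q x = x - c • A x := fun x => rfl
  have hPb : Function.Bijective P := bij_of_cg P fun v => ⟨(2 : ℤ_[2]) ^ a' • A v, by
    rw [hP, add_sub_cancel_left, smul_smul, ← pow_succ', hc]⟩
  have hQb : Function.Bijective Q := bij_of_cg Q fun v => ⟨-((2 : ℤ_[2]) ^ a' • A v), by
    rw [hQ, sub_sub_cancel_left, smul_neg, smul_smul, ← pow_succ', hc]⟩
  have hPQ : ∀ x y, β (P x) (P y) = β (Q x) (Q y) := by
    intro x y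
    rw [hP, hP, hQ, hQ]
    simp only [map_add, map_sub, map_smul, LinearMap.add_apply, LinearMap.sub_apply,
      LinearMap.smul_apply, smul_eq_mul, hA x y]
    ring
  let eP := LinearEquiv.ofBijective P hPb
  let eQ := LinearEquiv.ofBijective Q hQb
  have hα : ∀ x, (eQ.symm.trans eP) (Q x) = P x := by
    intro x
    rw [LinearEquiv.trans_apply]
    have h1 : eQ.symm (Q x) = x := eQ.symm_apply_apply x
    rw [h1]
    rfl
  refine ⟨eQ.symm.trans eP, fun x y => ?_, fun v => ?_, fun w => ?_⟩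
  · obtain ⟨x', rfl⟩ := hQb.2 x
    obtain ⟨y', rfl⟩ := hQb.2 y
    rw [hα, hα, hPQ]
  · obtain ⟨x, rfl⟩ := hQb.2 v
    refine ⟨(2 : ℤ_[2]) • A x, ?_⟩
    rw [hα, hP, hQ, two_smul ℤ_[2] (A x), smul_add]
    abel
  · refine ⟨Q (A' w), ?_⟩
    rw [hα, hP, hQ, hAA]
    have h1 : (2 : ℤ_[2]) ^ (a' + 1 + (C + 1)) = 2 * (c * 2 ^ C) := by
      rw [hc]
      ring
    rw [h1, mul_smul, mul_smul, two_smul]
    abel

end Pool.Agent.Q45.RD
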