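import Pool.Agent.Q45.RD.Cay

/-!
# Families of isometries without invariant multilinear maps
-/

set_option autoImplicit false
set_option linter.all false

open Module
open scoped Classical

namespace Pool.Agent.Q45.RD

open Pool.Agent.Q45.OI

section aux

variable {N : Type} [AddCommGroup N] [Module ℤ_[2] N]

theorem pow_le {p q : ℕ} (h : q ≤ p) {x : N} (hx : ∃ z, x = (2 : ℤ_[2]) ^ p • z) :
    ∃ z, x = (2 : ℤ_[2]) ^ q • z := by
  obtain ⟨z, hz⟩ := hx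
  refine ⟨(2 : ℤ_[2]) ^ (p - q) • z, ?_⟩
  rw [smul_smul, ← pow_add, Nat.add_sub_cancel' h]
  exact hz

theorem add_cg {p : ℕ} {x y : N} (hx : ∃ z, x = (2 : ℤ_[2]) ^ p • z)
    (hy : ∃ z, y = (2 : ℤ_[2]) ^ p • z) : ∃ z, x + y = (2 : ℤ_[2]) ^ p • z := by
  obtain ⟨z, rfl⟩ := hx
  obtain ⟨w, rfl⟩ := hy
  exact ⟨z + w, by rw [smul_add]⟩

end aux

section fam

variable {ι N : Type} {V : ι → Type} [∀ i, AddCommGroup (V i)] [∀ i, Module ℤ_[2] (V i)]
  [∀ i, Module.Finite ℤ_[2] (V i)] [∀ i, Module.Free ℤ_[2] (V i)]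
  [AddCommGroup N] [Module ℤ_[2] N] [Module.Finite ℤ_[2] N] [Module.Free ℤ_[2] N]

/-- There are no multilinear maps which commute with a power of the family. -/
def NoTensors (g : ∀ i, V i →ₗ[ℤ_[2]] V i) (h : N →ₗ[ℤ_[2]] N) : Prop :=
  ∀ (n : ℕ) (c : Fin n → ι), 0 < n → Function.Injective c → ∀ m : ℕ, 0 < m →
    ∀ Φ : MultilinearMap ℤ_[2] (fun s => V (c s)) N,
      (∀ x : ∀ s, V (c s), Φ (fun s => ((g (c s)) ^ m) (x s)) = (h ^ m) (Φ x)) → Φ = 0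

/-- The criterion. -/
theorem no_tensors (idx : ι → ℕ) (hidx : Function.Injective idx) (a E : ι → ℕ)
    (ha : ∀ i, 2 ≤ a i) (haE : ∀ i k, idx i < idx k → E i + 1 ≤ a k) {r : ℕ}
    (hr : ∀ i, E i + 1 ≤ r) (hr2 : 2 ≤ r) (α : ∀ i, V i →ₗ[ℤ_[2]] V i)
    (h1 : ∀ i v, ∃ v', α i v - v = (2 : ℤ_[2]) ^ (a i) • v')
    (h2 : ∀ i w, ∃ w', α i w' - w' = (2 : ℤ_[2]) ^ (E i) • w)
    (g : ∀ i, V i →ₗ[ℤ_[2]] V i) (h h' : N →ₗ[ℤ_[2]] N)
    (hh : ∀ y, h' (h y) = y) (hh' : ∀ y, h (h' y) = y)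
    (hg : ∀ i v, ∃ v', g i v - α i v = (2 : ℤ_[2]) ^ r • v')
    (hN : ∀ y, ∃ z, h y - y = (2 : ℤ_[2]) ^ r • z) : NoTensors g h := by
  intro n c hn hc m hm Φ hΦ
  have h22 : (4 : ℤ_[2]) = 2 ^ 2 := by norm_num
  have key : ∀ i v, g i v - v = (g i v - α i v) + (α i v - v) := fun i v => by abel
  have hfix := fixed_neat c g h h' hh hh' (fun i v => by
      rw [h22, key]
      exact add_cg (pow_le hr2 (hg i v)) (pow_le (ha i) (h1 i v))) (fun y => by
      rw [h22]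
      exact pow_le hr2 (hN y)) Φ m hm hΦ
  haveI : Nonempty (Fin n) := ⟨⟨0, hn⟩⟩
  obtain ⟨s0, hs0⟩ := Finite.exists_min fun s => idx (c s)
  refine zero_of_two (fun Φ : MultilinearMap ℤ_[2] (fun s => V (c s)) N =>
    ∀ x : ∀ s, V (c s), Φ (fun s => g (c s) (x s)) = h (Φ x)) ?_ ?_ Φ hfix
  · intro Ψ hΨ
    refine core_step c s0 Ψ (fun i => g i) h (E (c s0)) ?_ ?_ ?_ hΨ
    · intro w
      obtain ⟨w', hw'⟩ := h2 (c s0) w
      obtain ⟨z, hz⟩ := pow_le (hr (c s0)) (hg (c s0) w')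
      refine ⟨w', z, ?_⟩
      rw [key, hz, hw', add_comm]
    · intro s hs v
      have h3 : idx (c s0) < idx (c s) := by
        refine lt_of_le_of_ne (hs0 s) fun h4 => hs ?_
        exact (hc (hidx h4)).symm
      rw [key]
      exact add_cg (pow_le (hr (c s0)) (hg (c s) v)) (pow_le (haE _ _ h3) (h1 (c s) v))
    · intro y
      exact pow_le (hr (c s0)) (hN y)
  · intro Ψ Ψ' hΨ hP x
    apply cancel Pool.Agent.Q45.GM.JLIN7.two_ne
    have h3 := hP x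
    rw [hΨ, MultilinearMap.smul_apply, MultilinearMap.smul_apply, map_smul] at h3
    exact h3

/-- The family of isometries. -/
theorem exists_good [Fintype ι] (β : ∀ i, V i →ₗ[ℤ_[2]] V i →ₗ[ℤ_[2]] ℤ_[2])
    (hsym : ∀ i x y, β i x y = β i y x) (hnd : ∀ i x, (∀ y, β i x y = 0) → x = 0)
    (hm : ∀ i, Even (finrank ℤ_[2] (V i))) (j : ℕ) :
    ∃ α : ∀ i, V i ≃ₗ[ℤ_[2]] V i, (∀ i x y, β i (α i x) (α i y) = β i x y) ∧
      (∀ i v, ∃ v', α i v - v = (2 : ℤ_[2]) ^ j • v') ∧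
      ∃ r : ℕ, ∀ (N : Type) [AddCommGroup N] [Module ℤ_[2] N] [Module.Finite ℤ_[2] N]
        [Module.Free ℤ_[2] N] (g : ∀ i, V i →ₗ[ℤ_[2]] V i) (h h' : N →ₗ[ℤ_[2]] N),
        (∀ y, h' (h y) = y) → (∀ y, h (h' y) = y) →
        (∀ i v, ∃ v', g i v - α i v = (2 : ℤ_[2]) ^ r • v') →
        (∀ y, ∃ z, h y - y = (2 : ℤ_[2]) ^ r • z) → NoTensors g h := by
  have hc := fun i => exists_cayley (β i) (hsym i) (hnd i) (m := (hm i).choose) (hm i).choose_spec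
  choose C hC using hc
  let idx : ι → ℕ := fun i => (Fintype.equivFin ι i : ℕ)
  have hidx : Function.Injective idx := fun i k h =>
    (Fintype.equivFin ι).injective (Fin.ext h)
  have hlt : ∀ i, idx i < Fintype.card ι := fun i => (Fintype.equivFin ι i).isLt
  set S := ∑ i, C i with hS
  have hCS : ∀ i, C i ≤ S := fun i => Finset.single_le_sum (f := C) (fun _ _ => Nat.zero_le _)
    (Finset.mem_univ i)
  let a : ι → ℕ := fun i => j + 2 + (S + 1) * idx i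
  have ha : ∀ i, 1 ≤ a i := fun i => by
    show 1 ≤ j + 2 + (S + 1) * idx i
    omega
  choose α h0 h1 h2 using fun i => hC i (a i) (ha i)
  have hmul : ∀ {x y : ℕ}, x < y → (S + 1) * x + (S + 1) ≤ (S + 1) * y := by
    intro x y hxy
    rw [← Nat.mul_succ]
    exact Nat.mul_le_mul_left _ hxy
  refine ⟨α, h0, fun i v => pow_le (show j ≤ j + 2 + (S + 1) * idx i by omega) (h1 i v),
    j + 2 + (S + 1) * Fintype.card ι, ?_⟩
  intro N _ _ _ _ g h h' hh hh' hg hN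
  refine no_tensors idx hidx a (fun i => a i + C i) (fun i => ?_) (fun i k hik => ?_) (fun i => ?_)
    (by omega) (fun i => (α i : V i →ₗ[ℤ_[2]] V i)) h1 h2 g h h' hh hh' hg hN
  · show 2 ≤ j + 2 + (S + 1) * idx i
    omega
  · show j + 2 + (S + 1) * idx i + C i + 1 ≤ j + 2 + (S + 1) * idx k
    have := hmul hik
    have := hCS i
    omega
  · show j + 2 + (S + 1) * idx i + C i + 1 ≤ j + 2 + (S + 1) * Fintype.card ι
    have := hmul (hlt i)
    have := hCS i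
    omega

end fam

end Pool.Agent.Q45.RD
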