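import Pool.Agent.Q45.OI.P.PG
import Pool.Agent.Q45.GM.J.LIN7

/-!
# Multilinear maps which are fixed by one element
-/

set_option autoImplicit false
set_option linter.all false

open Module
open scoped Classical

namespace Pool.Agent.Q45.RD

open Pool.Agent.Q45.OI

section div

variable {n : ℕ} {M : Fin n → Type} [∀ i, AddCommGroup (M i)] [∀ i, Module ℤ_[2] (M i)] {N : Type}
  [AddCommGroup N] [Module ℤ_[2] N] [Module.Free ℤ_[2] N]

theorem cancel {c : ℤ_[2]} (hc : c ≠ 0) {x y : N} (h : c • x = c • y) : x = y :=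
  smul_right_injective N hc h

/-- A multilinear map whose values are divisible by `c` is divisible by `c`. -/
theorem mult_div (Φ : MultilinearMap ℤ_[2] M N) {c : ℤ_[2]} (hc : c ≠ 0)
    (h : ∀ x, ∃ z, Φ x = c • z) : ∃ Φ' : MultilinearMap ℤ_[2] M N, Φ = c • Φ' := by
  choose w hw using h
  refine ⟨⟨w, ?_, ?_⟩, ?_⟩
  · intro _ m i x y
    apply cancel hc
    rw [smul_add, ← hw, ← hw, ← hw]
    exact Φ.map_update_add m i x y
  · intro _ m i a x
    apply cancel hc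
    rw [smul_comm c a, ← hw, ← hw]
    exact Φ.map_update_smul m i a x
  · ext x
    exact hw x

/-- Descent. -/
theorem zero_of_two [Module.Finite ℤ_[2] N] (P : MultilinearMap ℤ_[2] M N → Prop)
    (h : ∀ Φ, P Φ → ∀ t, ∃ z, Φ t = (2 : ℤ_[2]) • z)
    (hP : ∀ Φ Φ' : MultilinearMap ℤ_[2] M N, Φ = (2 : ℤ_[2]) • Φ' → P Φ → P Φ')
    (Φ : MultilinearMap ℤ_[2] M N) (hΦ : P Φ) : Φ = 0 := by
  have key : ∀ (m : ℕ) (Φ : MultilinearMap ℤ_[2] M N), P Φ → ∀ t, ∃ z, Φ t = (2 : ℤ_[2]) ^ m • z := by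
    intro m
    induction m with
    | zero => exact fun Φ _ t => ⟨Φ t, by rw [pow_zero, one_smul]⟩
    | succ m ih =>
      intro Φ hΦ t
      obtain ⟨Φ', hΦ'⟩ := mult_div Φ Pool.Agent.Q45.GM.JLIN7.two_ne (h Φ hΦ)
      obtain ⟨z, hz⟩ := ih Φ' (hP Φ Φ' hΦ' hΦ) t
      refine ⟨z, ?_⟩
      rw [hΦ', MultilinearMap.smul_apply, hz, smul_smul, pow_succ']
  ext t
  exact zero_of_div fun m => key m Φ hΦ t

end div

section step

variable {ι N : Type} {M : ι → Type} [∀ i, AddCommGroup (M i)] [∀ i, Module ℤ_[2] (M i)]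
  [AddCommGroup N] [Module ℤ_[2] N] [Module.Finite ℤ_[2] N] [Module.Free ℤ_[2] N]

theorem two_pow_ne (e : ℕ) : ((2 : ℤ_[2]) ^ e) ≠ 0 := pow_ne_zero _ Pool.Agent.Q45.GM.JLIN7.two_ne

/-- The values are even. -/
theorem core_step {n : ℕ} (c : Fin n → ι) (s0 : Fin n)
    (Φ : MultilinearMap ℤ_[2] (fun s => M (c s)) N) (g : ∀ i, M i → M i) (h : N → N) (E : ℕ)
    (h0 : ∀ w : M (c s0), ∃ w' z, g (c s0) w' - w' = (2 : ℤ_[2]) ^ E • w + (2 : ℤ_[2]) ^ (E + 1) • z)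
    (h1 : ∀ s, s ≠ s0 → ∀ v : M (c s), ∃ z, g (c s) v - v = (2 : ℤ_[2]) ^ (E + 1) • z)
    (h2 : ∀ y, ∃ z, h y - y = (2 : ℤ_[2]) ^ (E + 1) • z)
    (hΦ : ∀ x : ∀ s, M (c s), Φ (fun s => g (c s) (x s)) = h (Φ x)) (t : ∀ s, M (c s)) :
    ∃ z, Φ t = (2 : ℤ_[2]) • z := by
  obtain ⟨w', z0, hw⟩ := h0 (t s0)
  obtain ⟨z, hz⟩ := mult_cg Φ ((2 : ℤ_[2]) ^ (E + 1))
    (fun s => g (c s) (Function.update t s0 w' s))
    (Function.update t s0 (w' + (2 : ℤ_[2]) ^ E • t s0)) (by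
      intro s
      by_cases hs : s = s0
      · subst hs
        refine ⟨z0, ?_⟩
        rw [Function.update_self, Function.update_self, ← sub_sub, hw]
        abel
      · obtain ⟨z, hz⟩ := h1 s hs (t s)
        refine ⟨z, ?_⟩
        rw [Function.update_of_ne hs, Function.update_of_ne hs]
        exact hz)
  obtain ⟨z', hz'⟩ := h2 (Φ (Function.update t s0 w'))
  rw [hΦ, Φ.map_update_add, Φ.map_update_smul, Function.update_eq_self] at hz
  refine ⟨z' - z, cancel (two_pow_ne E) ?_⟩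
  rw [smul_smul, ← pow_succ, smul_sub, ← hz', ← hz]
  abel

end step

section neat

variable {ι N : Type} {M : ι → Type} [∀ i, AddCommGroup (M i)] [∀ i, Module ℤ_[2] (M i)]
  [∀ i, Module.Finite ℤ_[2] (M i)] [∀ i, Module.Free ℤ_[2] (M i)]
  [AddCommGroup N] [Module ℤ_[2] N] [Module.Finite ℤ_[2] N] [Module.Free ℤ_[2] N]

/-- The operator on the multilinear maps. -/
noncomputable def opM {n : ℕ} (c : Fin n → ι) (g : ∀ i, M i →ₗ[ℤ_[2]] M i) (h : N →ₗ[ℤ_[2]] N) :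
    MultilinearMap ℤ_[2] (fun s => M (c s)) N →ₗ[ℤ_[2]] MultilinearMap ℤ_[2] (fun s => M (c s)) N where
  toFun Φ := h.compMultilinearMap (Φ.compLinearMap fun s => g (c s))
  map_add' Φ Φ' := by
    ext x
    simp only [LinearMap.compMultilinearMap_apply, MultilinearMap.compLinearMap_apply,
      MultilinearMap.add_apply, map_add]
  map_smul' a Φ := by
    ext x
    simp only [LinearMap.compMultilinearMap_apply, MultilinearMap.compLinearMap_apply,
      MultilinearMap.smul_apply, map_smul, RingHom.id_apply]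

theorem opM_apply {n : ℕ} (c : Fin n → ι) (g : ∀ i, M i →ₗ[ℤ_[2]] M i) (h : N →ₗ[ℤ_[2]] N)
    (Φ : MultilinearMap ℤ_[2] (fun s => M (c s)) N) (x : ∀ s, M (c s)) :
    opM c g h Φ x = h (Φ fun s => g (c s) (x s)) := rfl

theorem opM_pow {n : ℕ} (c : Fin n → ι) (g : ∀ i, M i →ₗ[ℤ_[2]] M i) (h : N →ₗ[ℤ_[2]] N) (m : ℕ)
    (Φ : MultilinearMap ℤ_[2] (fun s => M (c s)) N) (x : ∀ s, M (c s)) :
    ((opM c g h) ^ m) Φ x = (h ^ m) (Φ fun s => ((g (c s)) ^ m) (x s)) := by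
  induction m generalizing x with
  | zero => rfl
  | succ m ih =>
    rw [pow_succ', Module.End.mul_apply, opM_apply, ih, pow_succ', Module.End.mul_apply]
    rfl

/-- The elements which are congruent to `1` modulo `4`: a map fixed by a power is fixed. -/
theorem fixed_neat {n : ℕ} (c : Fin n → ι) (g : ∀ i, M i →ₗ[ℤ_[2]] M i) (h h' : N →ₗ[ℤ_[2]] N)
    (hh : ∀ y, h' (h y) = y) (hh' : ∀ y, h (h' y) = y)
    (h1 : ∀ i v, ∃ z, g i v - v = (4 : ℤ_[2]) • z) (h2 : ∀ y, ∃ z, h y - y = (4 : ℤ_[2]) • z)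
    (Φ : MultilinearMap ℤ_[2] (fun s => M (c s)) N) (m : ℕ) (hm : 0 < m)
    (hΦ : ∀ x : ∀ s, M (c s), Φ (fun s => ((g (c s)) ^ m) (x s)) = (h ^ m) (Φ x))
    (x : ∀ s, M (c s)) : Φ (fun s => g (c s) (x s)) = h (Φ x) := by
  have h4 : (4 : ℤ_[2]) ≠ 0 := by
    rw [show (4 : ℤ_[2]) = 2 ^ 2 by norm_num]
    exact two_pow_ne 2
  have h3 : ∀ Ψ, ∃ Ψ', opM c g h' Ψ - Ψ = (4 : ℤ_[2]) • Ψ' := by
    intro Ψ
    refine mult_div _ h4 fun x => ?_
    obtain ⟨z, hz⟩ := mult_cg Ψ (4 : ℤ_[2]) (fun s => g (c s) (x s)) x (fun s => h1 (c s) (x s))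
    obtain ⟨y, hy⟩ := h2 (h' (Ψ fun s => g (c s) (x s)))
    rw [hh'] at hy
    refine ⟨z - y, ?_⟩
    rw [MultilinearMap.sub_apply, opM_apply, smul_sub, ← hz, ← hy]
    abel
  have hp : ∀ (m : ℕ) y, (h' ^ m) ((h ^ m) y) = y := by
    intro m
    induction m with
    | zero => exact fun y => rfl
    | succ m ih =>
      intro y
      rw [pow_succ, pow_succ', Module.End.mul_apply, Module.End.mul_apply, hh, ih]
  have h5 := Pool.Agent.Q45.GM.JLIN7.gen m (opM c g h') h3 hm Φ (by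
    ext x
    rw [opM_pow, hΦ, hp])
  have h6 := congrArg (fun Ψ : MultilinearMap ℤ_[2] (fun s => M (c s)) N => h (Ψ x)) h5
  simp only [opM_apply, hh'] at h6
  exact h6

end neat

end Pool.Agent.Q45.RD
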