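import Pool.Agent.Q45.RD.Tor

/-!
# Isometries with given eigenvalues
-/

set_option autoImplicit false
set_option linter.all false

open Module Polynomial
open scoped Classical

namespace Pool.Agent.Q45.RD

section cay

variable {V : Type} [AddCommGroup V] [Module ℤ_[2] V] [Module.Finite ℤ_[2] V] [Module.Free ℤ_[2] V]

/-- The Cayley transform of a skew endomorphism which is divisible by two. -/
theorem cayley_of (β : V →ₗ[ℤ_[2]] V →ₗ[ℤ_[2]] ℤ_[2]) (A : V →ₗ[ℤ_[2]] V)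
    (hA : ∀ x y, β (A x) y = -β x (A y)) {e : ℕ} (he : 1 ≤ e)
    (hAe : ∀ v, ∃ v', A v = (2 : ℤ_[2]) ^ e • v') :
    ∃ α : V ≃ₗ[ℤ_[2]] V, (∀ x y, β (α x) (α y) = β x y) ∧
      (∀ v, ∃ v', α v - v = (2 : ℤ_[2]) ^ e • v') ∧ (∀ x, α (x - A x) = x + A x) ∧
      ∀ y, ∃ x, y = x - A x := by
  obtain ⟨e', rfl⟩ := Nat.exists_eq_add_of_le' he
  let P : V →ₗ[ℤ_[2]] V := LinearMap.id + A
  let Q : V →ₗ[ℤ_[2]] V := LinearMap.id - A
  have hP : ∀ x, P x = x + A x := fun x => rfl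
  have hQ : ∀ x, Q x = x - A x := fun x => rfl
  have hPb : Function.Bijective P := bij_of_cg P fun v => by
    obtain ⟨v', hv'⟩ := hAe v
    exact ⟨(2 : ℤ_[2]) ^ e' • v', by rw [hP, add_sub_cancel_left, hv', smul_smul, ← pow_succ']⟩
  have hQb : Function.Bijective Q := bij_of_cg Q fun v => by
    obtain ⟨v', hv'⟩ := hAe v
    exact ⟨-((2 : ℤ_[2]) ^ e' • v'), by
      rw [hQ, sub_sub_cancel_left, hv', smul_neg, smul_smul, ← pow_succ']⟩
  have hPQ : ∀ x y, β (P x) (P y) = β (Q x) (Q y) := by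
    intro x y
    rw [hP, hP, hQ, hQ]
    simp only [map_add, map_sub, LinearMap.add_apply, LinearMap.sub_apply, hA x y]
    ring
  let eP := LinearEquiv.ofBijective P hPb
  let eQ := LinearEquiv.ofBijective Q hQb
  have hα : ∀ x, (eQ.symm.trans eP) (Q x) = P x := by
    intro x
    rw [LinearEquiv.trans_apply]
    have h1 : eQ.symm (Q x) = x := eQ.symm_apply_apply x
    rw [h1]
    rfl
  refine ⟨eQ.symm.trans eP, fun x y => ?_, fun v => ?_, fun x => hα x, fun y => ?_⟩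
  · obtain ⟨x', rfl⟩ := hQb.2 x
    obtain ⟨y', rfl⟩ := hQb.2 y
    rw [hα, hα, hPQ]
  · obtain ⟨x, rfl⟩ := hQb.2 v
    obtain ⟨v', hv'⟩ := hAe x
    refine ⟨(2 : ℤ_[2]) • v', ?_⟩
    rw [hα, hP, hQ, smul_comm, ← hv', two_smul]
    abel
  · obtain ⟨x, hx⟩ := hQb.2 y
    exact ⟨x, hx.symm⟩

end cay

section root

variable {L : Type} [Field L] [Algebra ℤ_[2] L] {V : Type} [AddCommGroup V] [Module ℤ_[2] V]
  [Module.Finite ℤ_[2] V] [Module.Free ℤ_[2] V]

theorem aeval_form {g : V →ₗ[ℤ_[2]] V} {f : V →ₗ[ℤ_[2]] L} {c : L} (h : ∀ x, f (g x) = c * f x)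
    (p : ℤ_[2][X]) (x : V) : f (aeval g p x) = (p.map (algebraMap ℤ_[2] L)).eval c * f x := by
  induction p using Polynomial.induction_on' generalizing x with
  | add p q hp hq => rw [map_add, LinearMap.add_apply, map_add, hp, hq, Polynomial.map_add, eval_add,
      add_mul]
  | monomial n a =>
    have h1 : ∀ (n : ℕ) x, f ((g ^ n) x) = c ^ n * f x := by
      intro n
      induction n with
      | zero => intro x; rw [pow_zero, pow_zero, one_mul]; rfl
      | succ n ih =>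
        intro x
        rw [pow_succ, Module.End.mul_apply, ih, h, pow_succ]
        ring
    rw [aeval_monomial, Module.End.mul_apply, Module.algebraMap_end_apply, map_smul, h1,
      Polynomial.map_monomial, eval_monomial, Algebra.smul_def, mul_assoc]

/-- The eigenvalue of a form is a root of the characteristic polynomial. -/
theorem root_of_form {g : V →ₗ[ℤ_[2]] V} {f : V →ₗ[ℤ_[2]] L} {c : L} (h : ∀ x, f (g x) = c * f x)
    {x₀ : V} (hx : f x₀ ≠ 0) : (g.charpoly.map (algebraMap ℤ_[2] L)).eval c = 0 := by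
  have h1 := aeval_form h g.charpoly x₀
  rw [LinearMap.aeval_self_charpoly, LinearMap.zero_apply, map_zero] at h1
  exact (mul_eq_zero.1 h1.symm).resolve_right hx

end root

section plane

variable {L : Type} [Field L] [CharZero L] [IsAlgClosed L] [Algebra ℤ_[2] L] {V : Type}
  [AddCommGroup V] [Module ℤ_[2] V] [Module.Finite ℤ_[2] V] [Module.Free ℤ_[2] V]

/-- Isometries whose eigenvalues are given by the scales `a`. -/
theorem exists_planes (hO : Orth) (hLi : Function.Injective (algebraMap ℤ_[2] L))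
    (β : V →ₗ[ℤ_[2]] V →ₗ[ℤ_[2]] ℤ_[2]) (hsym : ∀ x y, β x y = β y x)
    (hnd : ∀ x, (∀ y, β x y = 0) → x = 0) {m : ℕ} (hm : finrank ℤ_[2] V = m + m) :
    ∃ δ : Fin m → L, (∀ p, δ p ≠ 0) ∧ ∀ (a : Fin m → ℕ) (e : ℕ), 1 ≤ e → (∀ p, e ≤ a p) →
      (∀ p, (1 : L) + 2 ^ a p * δ p ≠ 0) → (∀ p, (1 : L) - 2 ^ a p * δ p ≠ 0) →
      ∃ α : V ≃ₗ[ℤ_[2]] V, (∀ x y, β (α x) (α y) = β x y) ∧
        (∀ v, ∃ v', α v - v = (2 : ℤ_[2]) ^ e • v') ∧
        ∀ k : Fin m × Bool, ∃ f : V →ₗ[ℤ_[2]] L, f ≠ 0 ∧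
          ∀ x, f (α x) = lamb (fun p => 2 ^ a p * δ p) k * f x := by
  obtain ⟨v₀, D, hD, hv₀, hvv₀, -⟩ := hO V β hsym hnd
  let E : Fin m × Bool ≃ Fin (finrank ℤ_[2] V) := Fintype.equivOfCardEq (by
    rw [Fintype.card_prod, Fintype.card_fin, Fintype.card_bool, Fintype.card_fin, hm]
    ring)
  let u : Fin m → V := fun p => v₀ (E (p, true))
  let w : Fin m → V := fun p => v₀ (E (p, false))
  have huw : ∀ p q, β (u p) (w q) = 0 := fun p q => hv₀ _ _ fun h => by
    have := E.injective h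
    simp at this
  have hwu : ∀ p q, β (w p) (u q) = 0 := fun p q => by rw [hsym]; exact huw q p
  have huu : ∀ p q, p ≠ q → β (u p) (u q) = 0 := fun p q hpq => hv₀ _ _ fun h => hpq (by
    have := E.injective h
    exact congrArg Prod.fst this)
  have hww : ∀ p q, p ≠ q → β (w p) (w q) = 0 := fun p q hpq => hv₀ _ _ fun h => hpq (by
    have := E.injective h
    exact congrArg Prod.fst this)
  have hu0 : ∀ p, β (u p) (u p) ≠ 0 := fun p => hvv₀ _
  have hw0 : ∀ p, β (w p) (w p) ≠ 0 := fun p => hvv₀ _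
  have hδ : ∀ p, ∃ δ : L, δ ^ 2 = -(algebraMap ℤ_[2] L (β (u p) (u p)) *
      algebraMap ℤ_[2] L (β (w p) (w p))) := fun p => IsAlgClosed.exists_pow_nat_eq _ two_pos
  choose δ hδ using hδ
  have hi0 : ∀ {c : ℤ_[2]}, c ≠ 0 → algebraMap ℤ_[2] L c ≠ 0 := fun {c} hc h0 =>
    hc (hLi (by rw [h0, map_zero]))
  have hδ0 : ∀ p, δ p ≠ 0 := by
    intro p h0
    have h1 := hδ p
    rw [h0, zero_pow two_ne_zero, eq_comm, neg_eq_zero] at h1
    exact mul_ne_zero (hi0 (hu0 p)) (hi0 (hw0 p)) h1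
  refine ⟨δ, hδ0, fun a e he hea h1p h1m => ?_⟩
  -- the skew endomorphism
  let A : V →ₗ[ℤ_[2]] V := ∑ p, (2 : ℤ_[2]) ^ a p •
    ((β.flip (u p)).smulRight (w p) - (β.flip (w p)).smulRight (u p))
  have hA : ∀ x, A x = ∑ p, (2 : ℤ_[2]) ^ a p • (β x (u p) • w p - β x (w p) • u p) := by
    intro x
    show (∑ p, (2 : ℤ_[2]) ^ a p •
      ((β.flip (u p)).smulRight (w p) - (β.flip (w p)).smulRight (u p))) x = _
    rw [LinearMap.sum_apply]
    rfl
  have hskew : ∀ x y, β (A x) y = -β x (A y) := by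
    intro x y
    rw [hA, hA, map_sum, map_sum, LinearMap.sum_apply, ← Finset.sum_neg_distrib]
    refine Finset.sum_congr rfl fun p _ => ?_
    simp only [map_smul, map_sub, LinearMap.smul_apply, LinearMap.sub_apply, smul_eq_mul]
    rw [hsym (w p) y, hsym (u p) y]
    ring
  have hdiv : ∀ v, ∃ v', A v = (2 : ℤ_[2]) ^ e • v' := by
    intro v
    refine ⟨∑ p, (2 : ℤ_[2]) ^ (a p - e) • (β v (u p) • w p - β v (w p) • u p), ?_⟩
    rw [hA, Finset.smul_sum]
    refine Finset.sum_congr rfl fun p _ => ?_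
    rw [smul_smul ((2 : ℤ_[2]) ^ e), ← pow_add, Nat.add_sub_cancel' (hea p)]
  obtain ⟨α, h1, h2, h3, h4⟩ := cayley_of β A hskew he hdiv
  refine ⟨α, h1, h2, fun k => ?_⟩
  obtain ⟨p, s⟩ := k
  -- the values of the form on `A x`
  have hAu : ∀ x, β (A x) (u p) = -(2 ^ a p * (β x (w p) * β (u p) (u p))) := by
    intro x
    rw [hA, map_sum, LinearMap.sum_apply, Finset.sum_eq_single p]
    · simp only [map_smul, map_sub, LinearMap.smul_apply, LinearMap.sub_apply, smul_eq_mul]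
      rw [hwu]
      ring
    · intro q _ hq
      simp only [map_smul, map_sub, LinearMap.smul_apply, LinearMap.sub_apply, smul_eq_mul]
      rw [hwu, huu q p hq]
      ring
    · intro h
      exact absurd (Finset.mem_univ p) h
  have hAw : ∀ x, β (A x) (w p) = 2 ^ a p * (β x (u p) * β (w p) (w p)) := by
    intro x
    rw [hA, map_sum, LinearMap.sum_apply, Finset.sum_eq_single p]
    · simp only [map_smul, map_sub, LinearMap.smul_apply, LinearMap.sub_apply, smul_eq_mul]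
      rw [huw]
      ring
    · intro q _ hq
      simp only [map_smul, map_sub, LinearMap.smul_apply, LinearMap.sub_apply, smul_eq_mul]
      rw [huw, hww q p hq]
      ring
    · intro h
      exact absurd (Finset.mem_univ p) h
  let i := algebraMap ℤ_[2] L
  -- the eigenform for the sign `ε`
  have key : ∀ ε : L, ε ^ 2 = 1 → ∃ f : V →ₗ[ℤ_[2]] L, f ≠ 0 ∧
      ∀ x, f (A x) = ε * (2 ^ a p * δ p) * f x := by
    intro ε hε
    let f : V →ₗ[ℤ_[2]] L := i (β (w p) (w p)) • (Algebra.linearMap ℤ_[2] L).comp (β.flip (u p)) +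
      (ε * δ p) • (Algebra.linearMap ℤ_[2] L).comp (β.flip (w p))
    have hf : ∀ x, f x = i (β (w p) (w p)) * i (β x (u p)) + ε * δ p * i (β x (w p)) := fun x => rfl
    refine ⟨f, fun h0 => ?_, fun x => ?_⟩
    · have h5 : f (u p) = 0 := by rw [h0]; rfl
      rw [hf, huw, map_zero, mul_zero, add_zero] at h5
      exact mul_ne_zero (hi0 (hw0 p)) (hi0 (hu0 p)) h5
    · rw [hf, hf, hAu, hAw, map_neg, map_mul, map_mul, map_mul, map_mul, map_pow]
      have h2' : i (2 : ℤ_[2]) = 2 := map_ofNat _ 2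
      rw [h2']
      have h6 := hδ p
      linear_combination (-(2 : L) ^ a p * i (β x (w p)) * (ε ^ 2)) * h6 +
        ((2 : L) ^ a p * i (β x (w p)) * (i (β (u p) (u p)) * i (β (w p) (w p)))) * hε
  have step : ∀ (f : V →ₗ[ℤ_[2]] L) (c : L), (∀ x, f (A x) = c * f x) → 1 - c ≠ 0 →
      ∀ y, f (α y) = (1 + c) / (1 - c) * f y := by
    intro f c hf hc y
    obtain ⟨x, rfl⟩ := h4 y
    rw [h3, map_add, map_sub, hf]
    field_simp
  cases s with
  | true =>
    obtain ⟨f, hf0, hf⟩ := key 1 (one_pow 2)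
    refine ⟨f, hf0, fun x => ?_⟩
    rw [step f (1 * (2 ^ a p * δ p)) hf (by rw [one_mul]; exact h1m p)]
    simp only [lamb, if_true, one_mul]
  | false =>
    obtain ⟨f, hf0, hf⟩ := key (-1) (by norm_num)
    refine ⟨f, hf0, fun x => ?_⟩
    rw [step f (-1 * (2 ^ a p * δ p)) hf (by
      rw [neg_one_mul, sub_neg_eq_add]
      exact h1p p)]
    simp only [lamb, Bool.false_eq_true, if_false, neg_one_mul, sub_neg_eq_add, ← sub_eq_add_neg]

end plane

end Pool.Agent.Q45.RD
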