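import Pool.Agent.Q45.RD.Good
import Pool.Agent.Q45.RD.Stm

/-!
# Tensors fixed by one isometry are fixed by its torus
-/

set_option autoImplicit false
set_option linter.all false

open Module
open scoped Classical

namespace Pool.Agent.Q45.RD

section forms

variable {L : Type} [Field L] [Algebra ℤ_[2] L] {V : Type} [AddCommGroup V] [Module ℤ_[2] V]
  [Module.Finite ℤ_[2] V] [Module.Free ℤ_[2] V] {K : Type} [Fintype K] {f : K → (V →ₗ[ℤ_[2]] L)}

/-- The data of a basis of eigenforms. -/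
structure IsEigenbasis (g : V →ₗ[ℤ_[2]] V) (lam : K → L) (f : K → (V →ₗ[ℤ_[2]] L)) : Prop where
  inj : Function.Injective lam
  eig : ∀ k x, f k (g x) = lam k * f k x
  span : ∀ φ : V →ₗ[ℤ_[2]] L, ∃ a : K → L, ∀ x, φ x = ∑ k, a k * f k x
  ind : ∀ a : K → L, (∀ x, ∑ k, a k * f k x = 0) → a = 0

theorem IsEigenbasis.eq_of {g : V →ₗ[ℤ_[2]] V} {lam : K → L} (h : IsEigenbasis g lam f) {a b : K → L}
    (hab : ∀ x, ∑ k, a k * f k x = ∑ k, b k * f k x) : a = b := by
  rw [← sub_eq_zero]
  refine h.ind _ fun x => ?_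
  simp only [Pi.sub_apply, sub_mul, Finset.sum_sub_distrib]
  rw [hab, sub_self]

/-- An eigenform with the eigenvalue `lam k` is a multiple of `f k`. -/
theorem IsEigenbasis.mult {g : V →ₗ[ℤ_[2]] V} {lam : K → L} (h : IsEigenbasis g lam f) {c : L}
    (φ : V →ₗ[ℤ_[2]] L) (hφ : ∀ x, φ (g x) = c * φ x) :
    ∃ a : K → L, (∀ x, φ x = ∑ k, a k * f k x) ∧ ∀ k, a k ≠ 0 → lam k = c := by
  obtain ⟨a, ha⟩ := h.span φ
  refine ⟨a, ha, fun k hk => ?_⟩
  have h1 : (fun k => a k * lam k) = fun k => c * a k := h.eq_of fun x => by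
    have h2 := hφ x
    rw [ha, ha, Finset.mul_sum] at h2
    calc ∑ k, a k * lam k * f k x = ∑ k, a k * f k (g x) :=
          Finset.sum_congr rfl fun k _ => by rw [h.eig, mul_assoc]
      _ = ∑ k, c * (a k * f k x) := h2
      _ = ∑ k, c * a k * f k x := Finset.sum_congr rfl fun k _ => by rw [mul_assoc]
  have h3 : a k * lam k = c * a k := congrFun h1 k
  rw [mul_comm c] at h3
  exact mul_left_cancel₀ hk h3

variable {g : V →ₗ[ℤ_[2]] V} {lam : K → L}

/-- An endomorphism which commutes with `g` multiplies the eigenforms by scalars. -/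
theorem IsEigenbasis.scal (h : IsEigenbasis g lam f) (u : V →ₗ[ℤ_[2]] V)
    (hug : ∀ x, u (g x) = g (u x)) : ∃ t : K → L, ∀ k x, f k (u x) = t k * f k x := by
  have key : ∀ k, ∃ t : L, ∀ x, f k (u x) = t * f k x := by
    intro k
    obtain ⟨a, ha, ha'⟩ := h.mult ((f k).comp u) (c := lam k) fun x => by
      rw [LinearMap.comp_apply, LinearMap.comp_apply, hug, h.eig]
    refine ⟨a k, fun x => ?_⟩
    have h1 : f k (u x) = ∑ k, a k * f k x := ha x
    rw [h1]
    refine Finset.sum_eq_single k (fun l _ hl => ?_) fun h2 => absurd (Finset.mem_univ k) h2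
    by_cases h3 : a l = 0
    · rw [h3, zero_mul]
    · exact absurd (h.inj (ha' l h3)) hl
  choose t ht using key
  exact ⟨t, ht⟩

/-- The scalars of an isometry. -/
theorem IsEigenbasis.scal_mul (hO : Orth) (hLi : Function.Injective (algebraMap ℤ_[2] L))
    (h : IsEigenbasis g lam f) (β : V →ₗ[ℤ_[2]] V →ₗ[ℤ_[2]] ℤ_[2]) (hsym : ∀ x y, β x y = β y x)
    (hnd : ∀ x, (∀ y, β x y = 0) → x = 0) (hg : ∀ x y, β (g x) (g y) = β x y)
    (bar : K → K) (hbar : ∀ k l, lam k * lam l = 1 → l = bar k)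
    (u : V →ₗ[ℤ_[2]] V) (hu : ∀ x y, β (u x) (u y) = β x y) (t : K → L)
    (ht : ∀ k x, f k (u x) = t k * f k x) (k : K) : t k * t (bar k) = 1 := by
  obtain ⟨v, D, hD, hv, hvv, hdec⟩ := hO V β hsym hnd
  -- the forms `x ↦ β x y`
  have h1 : ∀ y, ∃ b : K → L, ∀ x, algebraMap ℤ_[2] L (β x y) = ∑ k, b k * f k x := by
    intro y
    exact h.span ((Algebra.linearMap ℤ_[2] L).comp (β.flip y))
  choose b hb using h1
  have hbadd : ∀ y z, b (y + z) = fun k => b y k + b z k := fun y z => h.eq_of fun x => by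
    rw [← hb, map_add, map_add, hb, hb, ← Finset.sum_add_distrib]
    exact Finset.sum_congr rfl fun k _ => by rw [add_mul]
  have hbsmul : ∀ (c : ℤ_[2]) y, b (c • y) = fun k => algebraMap ℤ_[2] L c * b y k :=
    fun c y => h.eq_of fun x => by
      rw [← hb, map_smul, smul_eq_mul, map_mul, hb, Finset.mul_sum]
      exact Finset.sum_congr rfl fun k _ => by rw [mul_assoc]
  let bl : K → (V →ₗ[ℤ_[2]] L) := fun k =>
    { toFun := fun y => b y k
      map_add' := fun y z => by rw [hbadd]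
      map_smul' := fun c y => by
        rw [hbsmul, RingHom.id_apply, Algebra.smul_def] }
  have hbl : ∀ k y, bl k y = b y k := fun _ _ => rfl
  -- the eigenvalue of `bl k`
  have h2 : ∀ k y, lam k * b (g y) k = b y k := by
    intro k y
    have h3 : (fun k => b (g y) k * lam k) = b y := h.eq_of fun x => by
      rw [← hb, ← hg, hb]
      exact Finset.sum_congr rfl fun k _ => by rw [h.eig, mul_assoc]
    rw [← congrFun h3 k, mul_comm]
  have h2u : ∀ k y, t k * b (u y) k = b y k := by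
    intro k y
    have h3 : (fun k => b (u y) k * t k) = b y := h.eq_of fun x => by
      rw [← hb, ← hu, hb]
      exact Finset.sum_congr rfl fun k _ => by rw [ht, mul_assoc]
    rw [← congrFun h3 k, mul_comm]
  -- `bl k` is not zero
  have h4 : ∃ y, b y k ≠ 0 := by
    by_contra hcon
    push Not at hcon
    have h5 : ∀ x, f k x = ∑ i, (f k (v i) / algebraMap ℤ_[2] L (β (v i) (v i))) *
        algebraMap ℤ_[2] L (β x (v i)) := by
      intro x
      obtain ⟨a, ha⟩ := hdec x
      have h6 : ∀ i, D * β x (v i) = a i * β (v i) (v i) := by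
        intro i
        have h7 := congrArg (fun z => β z (v i)) ha
        simp only [map_smul, LinearMap.smul_apply, smul_eq_mul, map_sum, LinearMap.sum_apply] at h7
        rw [h7]
        refine Finset.sum_eq_single i (fun j _ hj => ?_) fun h8 => absurd (Finset.mem_univ i) h8
        rw [hv j i hj, mul_zero]
      have h8 : algebraMap ℤ_[2] L D * f k x = ∑ i, algebraMap ℤ_[2] L (a i) * f k (v i) := by
        have h9 := congrArg (f k) ha
        rw [map_smul, map_sum, Algebra.smul_def] at h9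
        rw [h9]
        exact Finset.sum_congr rfl fun i _ => by rw [map_smul, Algebra.smul_def]
      have hD' : algebraMap ℤ_[2] L D ≠ 0 := fun h0 => hD (hLi (by rw [h0, map_zero]))
      apply mul_left_cancel₀ hD'
      rw [h8, Finset.mul_sum]
      refine Finset.sum_congr rfl fun i _ => ?_
      have hvi : algebraMap ℤ_[2] L (β (v i) (v i)) ≠ 0 := fun h0 =>
        hvv i (hLi (by rw [h0, map_zero]))
      have h10 := congrArg (algebraMap ℤ_[2] L) (h6 i)
      rw [map_mul, map_mul] at h10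
      field_simp
      linear_combination (-(f k (v i))) * h10
    -- then `f k` is a combination of the other forms
    have h11 : (fun l => if l = k then (1 : L) else 0) = fun l =>
        ∑ i, (f k (v i) / algebraMap ℤ_[2] L (β (v i) (v i))) * b (v i) l := h.eq_of fun x => by
      rw [Finset.sum_congr rfl fun l _ => show (if l = k then (1 : L) else 0) * f l x =
        if l = k then f l x else 0 by split_ifs <;> simp, Finset.sum_ite_eq' Finset.univ k,
        if_pos (Finset.mem_univ k), h5]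
      calc ∑ i, (f k (v i) / algebraMap ℤ_[2] L (β (v i) (v i))) * algebraMap ℤ_[2] L (β x (v i))
          = ∑ i, ∑ l, (f k (v i) / algebraMap ℤ_[2] L (β (v i) (v i))) * b (v i) l * f l x :=
            Finset.sum_congr rfl fun i _ => by
              rw [hb (v i) x, Finset.mul_sum]
              exact Finset.sum_congr rfl fun l _ => by rw [mul_assoc]
        _ = _ := by
            rw [Finset.sum_comm]
            exact Finset.sum_congr rfl fun l _ => by rw [Finset.sum_mul]
    have h12 := congrFun h11 k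
    simp only [if_true, hcon, mul_zero, Finset.sum_const_zero] at h12
    exact one_ne_zero h12
  obtain ⟨y, hy⟩ := h4
  have hlam : lam k ≠ 0 := by
    intro h0
    apply hy
    rw [← h2, h0, zero_mul]
  obtain ⟨a, ha, ha'⟩ := h.mult (bl k) (c := (lam k)⁻¹) fun x => by
    rw [hbl, hbl, ← h2 k x, ← mul_assoc, inv_mul_cancel₀ hlam, one_mul]
  have h13 : ∀ z, b z k = a (bar k) * f (bar k) z := by
    intro z
    rw [← hbl, ha]
    refine Finset.sum_eq_single (bar k) (fun l _ hl => ?_) fun h3 => absurd (Finset.mem_univ _) h3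
    by_cases h3 : a l = 0
    · rw [h3, zero_mul]
    · exact absurd (hbar k l (by rw [ha' l h3, mul_inv_cancel₀ hlam])) hl
  have h14 := h2u k y
  rw [h13 (u y), ht, h13 y] at h14
  have h15 : a (bar k) * f (bar k) y ≠ 0 := by rwa [← h13]
  apply mul_right_cancel₀ h15
  linear_combination h14

end forms

section main

variable {L : Type} [NormedField L] [IsUltrametricDist L] [Algebra ℤ_[2] L] {V N : Type}
  [AddCommGroup V] [Module ℤ_[2] V] [Module.Finite ℤ_[2] V] [Module.Free ℤ_[2] V] [AddCommGroup N]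
  [Module ℤ_[2] N] [Module.Finite ℤ_[2] N] [Module.Free ℤ_[2] N] {K : Type} [Fintype K]
  {f : K → (V →ₗ[ℤ_[2]] L)} {g : V →ₗ[ℤ_[2]] V} {lam : K → L}

theorem norm_two_pow (hL : ∀ x : ℤ_[2], ‖algebraMap ℤ_[2] L x‖ = ‖x‖) (r : ℕ) (x : ℤ_[2]) :
    ‖algebraMap ℤ_[2] L ((2 : ℤ_[2]) ^ r * x)‖ ≤ (1 / 2 : ℝ) ^ r := by
  rw [hL, norm_mul, norm_pow]
  have h2 : ‖(2 : ℤ_[2])‖ = 1 / 2 := by
    have h := PadicInt.norm_p (p := 2)
    have h3 : ((2 : ℕ) : ℤ_[2]) = 2 := Nat.cast_ofNat
    rw [h3] at h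
    rw [h]
    norm_num
  rw [h2]
  exact mul_le_of_le_one_right (by positivity) (PadicInt.norm_le_one x)

/-- A tensor which is fixed by `g`, with a small operator on the values, is fixed by the isometries which
commute with `g`. -/
theorem torus_inv (hO : Orth) (hE : Exp) (hL : ∀ x : ℤ_[2], ‖algebraMap ℤ_[2] L x‖ = ‖x‖)
    (h : IsEigenbasis g lam f) (β : V →ₗ[ℤ_[2]] V →ₗ[ℤ_[2]] ℤ_[2]) (hsym : ∀ x y, β x y = β y x)
    (hnd : ∀ x, (∀ y, β x y = 0) → x = 0) (hg : ∀ x y, β (g x) (g y) = β x y)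
    (bar : K → K) (hbar : ∀ k l, lam k * lam l = 1 → l = bar k) {r : ℕ} (θ : N →ₗ[ℤ_[2]] N)
    (hθ : ∀ y, ∃ z, θ y - y = (2 : ℤ_[2]) ^ r • z) {n : ℕ}
    (hw : ∀ w : Fin n → K, ‖(∏ s, lam (w s)) - 1‖ ≤ (1 / 2 : ℝ) ^ r →
      ∀ t : K → L, (∀ k, t k * t (bar k) = 1) → ∏ s, t (w s) = 1)
    (Φ : MultilinearMap ℤ_[2] (fun _ : Fin n => V) N) (hΦ : ∀ x : Fin n → V, Φ (fun s => g (x s)) = θ (Φ x))
    (u : V →ₗ[ℤ_[2]] V) (hu : ∀ x y, β (u x) (u y) = β x y) (hug : ∀ x, u (g x) = g (u x))
    (x : Fin n → V) : Φ (fun s => u (x s)) = Φ x := by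
  have hLi : Function.Injective (algebraMap ℤ_[2] L) := by
    rw [injective_iff_map_eq_zero]
    intro a ha
    rw [← norm_eq_zero, ← hL, ha, norm_zero]
  obtain ⟨t, ht⟩ := h.scal u hug
  have htt := h.scal_mul hO hLi β hsym hnd hg bar hbar u hu t ht
  obtain ⟨hex, huni⟩ := hE L V K f h.span h.ind n
  have heq : ∀ c d : (Fin n → K) → L, (∀ x : Fin n → V, ∑ w : Fin n → K, c w * ∏ s, f (w s) (x s) =
      ∑ w : Fin n → K, d w * ∏ s, f (w s) (x s)) → c = d := by
    intro c d hcd
    rw [← sub_eq_zero]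
    refine huni _ fun x => ?_
    simp only [Pi.sub_apply, sub_mul, Finset.sum_sub_distrib]
    rw [hcd, sub_self]
  let b := Module.Free.chooseBasis ℤ_[2] N
  let J := Module.Free.ChooseBasisIndex ℤ_[2] N
  -- the components
  let Ψ : J → MultilinearMap ℤ_[2] (fun _ : Fin n => V) L := fun j =>
    ((Algebra.linearMap ℤ_[2] L).comp (b.coord j)).compMultilinearMap Φ
  have hΨ : ∀ j (x : Fin n → V), Ψ j x = algebraMap ℤ_[2] L (b.coord j (Φ x)) := fun _ _ => rfl
  choose c hc using fun j => hex (Ψ j)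
  -- the matrix of `θ - 1`
  choose z hz using fun i : J => hθ (b i)
  have hθ' : ∀ (y : N) (j : J), b.coord j (θ y) = b.coord j y +
      ∑ i, (2 : ℤ_[2]) ^ r * b.coord j (z i) * b.coord i y := by
    intro y j
    have h1 : θ y = y + ∑ i, b.coord i y • ((2 : ℤ_[2]) ^ r • z i) := by
      have h2 : ∀ i, (2 : ℤ_[2]) ^ r • z i = θ (b i) - b i := fun i => (hz i).symm
      conv_lhs => rw [← b.sum_repr y]
      conv_rhs => rw [← b.sum_repr y]
      rw [map_sum]
      simp only [h2, map_smul, smul_sub, Finset.sum_sub_distrib, Module.Basis.coord_apply,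
        b.sum_repr]
      abel
    conv_lhs => rw [h1]
    rw [map_add, map_sum]
    congr 1
    refine Finset.sum_congr rfl fun i _ => ?_
    rw [map_smul, map_smul, smul_eq_mul, smul_eq_mul]
    ring
  have hcoef : ∀ (j : J) (w : Fin n → K), ((∏ s, lam (w s)) - 1) * c j w =
      ∑ i, algebraMap ℤ_[2] L ((2 : ℤ_[2]) ^ r * b.coord j (z i)) * c i w := by
    intro j w
    have h1 : (fun w : Fin n → K => (∏ s, lam (w s)) * c j w) = fun w => c j w +
        ∑ i, algebraMap ℤ_[2] L ((2 : ℤ_[2]) ^ r * b.coord j (z i)) * c i w := by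
      refine heq _ _ fun x => ?_
      have h2 : ∑ w : Fin n → K, ((∏ s, lam (w s)) * c j w) * ∏ s, f (w s) (x s) =
          Ψ j (fun s => g (x s)) := by
        rw [hc]
        refine Finset.sum_congr rfl fun w _ => ?_
        rw [Finset.prod_congr rfl fun s _ => h.eig (w s) (x s), Finset.prod_mul_distrib]
        ring
      rw [h2, hΨ, hΦ, hθ', map_add, ← hΨ, hc, map_sum]
      simp only [add_mul, Finset.sum_add_distrib, Finset.sum_mul]
      congr 1
      rw [Finset.sum_comm]
      refine Finset.sum_congr rfl fun i _ => ?_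
      rw [map_mul, ← hΨ, hc, Finset.mul_sum]
      refine Finset.sum_congr rfl fun w _ => ?_
      rw [mul_assoc]
    have h3 : (∏ s, lam (w s)) * c j w = c j w +
        ∑ i, algebraMap ℤ_[2] L ((2 : ℤ_[2]) ^ r * b.coord j (z i)) * c i w := congrFun h1 w
    linear_combination h3
  -- the coefficients vanish unless the word is balanced
  have hbal : ∀ w : Fin n → K, (∃ j, c j w ≠ 0) → ∏ s, t (w s) = 1 := by
    rintro w ⟨j₀, hj₀⟩
    haveI : Nonempty J := ⟨j₀⟩
    refine hw w ?_ t htt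
    obtain ⟨j, hj⟩ := Finite.exists_max fun j => ‖c j w‖
    have h0 : 0 < ‖c j w‖ := lt_of_lt_of_le (norm_pos_iff.2 hj₀) (hj j₀)
    have h1 : ‖((∏ s, lam (w s)) - 1) * c j w‖ ≤ (1 / 2 : ℝ) ^ r * ‖c j w‖ := by
      rw [hcoef]
      refine IsUltrametricDist.norm_sum_le_of_forall_le_of_nonneg (by positivity) fun i _ => ?_
      rw [norm_mul]
      exact mul_le_mul (norm_two_pow hL r _) (hj i) (norm_nonneg _) (by positivity)
    rw [norm_mul] at h1
    exact le_of_mul_le_mul_right h1 h0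
  apply b.ext_elem
  intro j
  have h1 : Ψ j (fun s => u (x s)) = Ψ j x := by
    rw [hc, hc]
    refine Finset.sum_congr rfl fun w _ => ?_
    by_cases h2 : c j w = 0
    · rw [h2, zero_mul, zero_mul]
    · rw [Finset.prod_congr rfl fun s _ => ht (w s) (x s), Finset.prod_mul_distrib,
        hbal w ⟨j, h2⟩, one_mul]
  exact hLi h1

end main

end Pool.Agent.Q45.RD
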